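import Mathlib

set_option autoImplicit false
set_option linter.unusedSectionVars false

/-!
Permutation groups containing the translations of a finite cyclic group, whose point stabiliser
moves the involution.  Elementary replacement for the theory of circulant Schur rings.
-/

namespace Pool.Agent.Lib_helper67.Circ

open Equiv

variable {C : Type*} [AddCommGroup C]

/-- the group of permutations `G` contains all translations -/
def Tr (G : Subgroup (Perm C)) : Prop := ∀ c : C, Equiv.addRight c ∈ G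

lemma conj_mem {G : Subgroup (Perm C)} (hG : Tr G) {σ : Perm C} (hσ : σ ∈ G) (a : C) :
    ∃ ρ ∈ G, ρ 0 = 0 ∧ ∀ g, ρ g = σ (a + g) - σ a := by
  refine ⟨Equiv.addRight (-(σ a)) * σ * Equiv.addRight a,
    G.mul_mem (G.mul_mem (hG _) hσ) (hG _), ?_, ?_⟩
  · simp
  · intro g
    simp [add_comm a g, sub_eq_add_neg]

/-- `Y` is invariant under the stabiliser of `0` -/
def Inv (G : Subgroup (Perm C)) (Y : Set C) : Prop :=
  ∀ σ ∈ G, σ 0 = 0 → ∀ y ∈ Y, σ y ∈ Y

lemma inv_app (ρ : Perm C) (x : C) : ρ⁻¹ (ρ x) = x := ρ.symm_apply_apply x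
lemma app_inv (ρ : Perm C) (x : C) : ρ (ρ⁻¹ x) = x := ρ.apply_symm_apply x

lemma inv_zero_symm {σ : Perm C} (h : σ 0 = 0) : σ⁻¹ 0 = 0 := by
  rw [Perm.inv_eq_iff_eq, h]

lemma Inv.iff {G : Subgroup (Perm C)} {Y : Set C} (hY : Inv G Y) {σ : Perm C} (hσ : σ ∈ G)
    (h0 : σ 0 = 0) (y : C) : σ y ∈ Y ↔ y ∈ Y := by
  refine ⟨fun h => ?_, hY σ hσ h0 y⟩
  have := hY σ⁻¹ (G.inv_mem hσ) (inv_zero_symm h0) _ h
  simpa using this

lemma Inv.diff {G : Subgroup (Perm C)} (hG : Tr G) {Y : Set C} (hY : Inv G Y) {σ : Perm C}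
    (hσ : σ ∈ G) (a b : C) : σ b - σ a ∈ Y ↔ b - a ∈ Y := by
  obtain ⟨ρ, hρ, h0, h⟩ := conj_mem hG hσ a
  have := hY.iff hρ h0 (b - a)
  rwa [h, add_sub_cancel] at this

/-- orbit of `y` under the stabiliser of `0` -/
def orb (G : Subgroup (Perm C)) (y : C) : Set C := {z | ∃ σ ∈ G, σ 0 = 0 ∧ σ y = z}

lemma orb_inv (G : Subgroup (Perm C)) (y : C) : Inv G (orb G y) := by
  rintro σ hσ h0 z ⟨τ, hτ, h1, rfl⟩
  exact ⟨σ * τ, G.mul_mem hσ hτ, by simp [h1, h0], rfl⟩

lemma self_mem_orb (G : Subgroup (Perm C)) (y : C) : y ∈ orb G y := ⟨1, G.one_mem, rfl, rfl⟩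

lemma orb_subset {G : Subgroup (Perm C)} {Y : Set C} (hY : Inv G Y) {y : C} (hy : y ∈ Y) :
    orb G y ⊆ Y := by
  rintro z ⟨σ, hσ, h0, rfl⟩
  exact hY σ hσ h0 y hy

lemma orb_eq {G : Subgroup (Perm C)} {y z : C} (h : z ∈ orb G y) : orb G z = orb G y := by
  apply Set.Subset.antisymm (orb_subset (orb_inv G y) h)
  apply orb_subset (orb_inv G z)
  obtain ⟨σ, hσ, h0, rfl⟩ := h
  exact ⟨σ⁻¹, G.inv_mem hσ, inv_zero_symm h0, by simp⟩

section frob

variable [Fintype C] [DecidableEq C]

open AddMonoidAlgebra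

/-- element of the group algebra with invariant coefficients -/
def InvA {R : Type*} [CommSemiring R] (G : Subgroup (Perm C)) (F : AddMonoidAlgebra R C) : Prop :=
  ∀ σ ∈ G, σ 0 = 0 → ∀ x, F.coeff (σ x) = F.coeff x

lemma InvA.diff {R : Type*} [CommSemiring R] {G : Subgroup (Perm C)} (hG : Tr G)
    {F : AddMonoidAlgebra R C} (hF : InvA G F) {σ : Perm C} (hσ : σ ∈ G) (a b : C) :
    F.coeff (σ b - σ a) = F.coeff (b - a) := by
  obtain ⟨ρ, hρ, h0, h⟩ := conj_mem hG hσ a
  have := hF ρ hρ h0 (b - a)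
  rwa [h, add_sub_cancel] at this

lemma coeff_mul_sum {R : Type*} [CommSemiring R] (F F' : AddMonoidAlgebra R C) (x : C) :
    (F * F').coeff x = ∑ a : C, F.coeff a * F'.coeff (x - a) := by
  rw [coeff_mul_apply_left, Finsupp.sum_fintype]
  · apply Finset.sum_congr rfl
    intro a _
    rw [neg_add_eq_sub]
  · intro i
    simp

lemma InvA.mul {R : Type*} [CommSemiring R] {G : Subgroup (Perm C)} (hG : Tr G)
    {F F' : AddMonoidAlgebra R C} (hF : InvA G F) (hF' : InvA G F') : InvA G (F * F') := by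
  intro σ hσ h0 x
  rw [coeff_mul_sum, coeff_mul_sum]
  rw [← Equiv.sum_comp σ]
  apply Finset.sum_congr rfl
  intro a _
  rw [hF σ hσ h0, hF'.diff hG hσ]

lemma InvA.one {R : Type*} [CommSemiring R] {G : Subgroup (Perm C)} :
    InvA G (1 : AddMonoidAlgebra R C) := by
  intro σ hσ h0 x
  rw [AddMonoidAlgebra.one_def]
  by_cases hx : x = 0
  · subst hx; rw [h0]
  · have : σ x ≠ 0 := by
      intro h
      apply hx
      apply σ.injective
      rw [h, h0]
    simp [hx, this]

lemma InvA.pow {R : Type*} [CommSemiring R] {G : Subgroup (Perm C)} (hG : Tr G)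
    {F : AddMonoidAlgebra R C} (hF : InvA G F) (k : ℕ) : InvA G (F ^ k) := by
  induction k with
  | zero => rw [pow_zero]; exact InvA.one
  | succ k ih => rw [pow_succ]; exact ih.mul hG hF

/-- the element of the group algebra attached to a finite set -/
noncomputable def ind (R : Type*) [CommSemiring R] (Y : Finset C) : AddMonoidAlgebra R C :=
  ∑ y ∈ Y, single y 1

lemma ind_coeff (R : Type*) [CommSemiring R] (Y : Finset C) (x : C) :
    (ind R Y).coeff x = if x ∈ Y then 1 else 0 := by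
  unfold ind
  rw [AddMonoidAlgebra.coeff_sum, Finsupp.finsetSum_apply]
  simp [Finsupp.single_apply]

lemma ind_inv (R : Type*) [CommSemiring R] {G : Subgroup (Perm C)} {Y : Finset C}
    (hY : Inv G (Y : Set C)) : InvA G (ind R Y) := by
  intro σ hσ h0 x
  rw [ind_coeff, ind_coeff]
  have := hY.iff hσ h0 x
  simp only [Finset.mem_coe] at this
  simp [this]

lemma frob_inv (p : ℕ) [hp : Fact p.Prime] {G : Subgroup (Perm C)} (hG : Tr G) {Y : Finset C}
    (hY : Inv G (Y : Set C)) {σ : Perm C} (hσ : σ ∈ G) (h0 : σ 0 = 0) {y : C}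
    (hcount : ¬ p ∣ (Y.filter (fun y' => p • y' = p • y)).card) :
    ∃ y' ∈ Y, σ (p • y) = p • y' := by
  have : CharP (AddMonoidAlgebra (ZMod p) C) p :=
    charP_of_injective_algebraMap' (ZMod p) p
  have hpow : (ind (ZMod p) Y) ^ p = ∑ y ∈ Y, single (p • y) 1 := by
    unfold ind
    rw [sum_pow_char p]
    apply Finset.sum_congr rfl
    intro y _
    rw [single_pow, one_pow]
  have hcoef : ∀ g, ((ind (ZMod p) Y) ^ p).coeff g =
      ((Y.filter (fun y' => p • y' = g)).card : ZMod p) := by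
    intro g
    rw [hpow, AddMonoidAlgebra.coeff_sum, Finsupp.finsetSum_apply]
    simp [Finsupp.single_apply]
  have hinv := (ind_inv (ZMod p) hY).pow hG p σ hσ h0 (p • y)
  rw [hcoef, hcoef] at hinv
  by_contra hcon
  push Not at hcon
  have h1 : Y.filter (fun y' => p • y' = σ (p • y)) = ∅ := by
    rw [Finset.filter_eq_empty_iff]
    intro y' hy' h
    exact hcon y' hy' h.symm
  rw [h1] at hinv
  simp only [Finset.card_empty, Nat.cast_zero] at hinv
  apply hcount
  exact (ZMod.natCast_eq_zero_iff _ _).1 hinv.symm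

end frob

/-! ### blocks, thin radicals and the minimal group -/

lemma closure_block {G : Subgroup (Perm C)} (hG : Tr G) {D : Set C} (hD : Inv G D)
    {σ : Perm C} (hσ : σ ∈ G) {g : C} (hg : g ∈ AddSubgroup.closure D) :
    ∀ a, σ (a + g) - σ a ∈ AddSubgroup.closure D := by
  induction hg using AddSubgroup.closure_induction with
  | mem x hx =>
    intro a
    apply AddSubgroup.subset_closure
    rw [hD.diff hG hσ]
    simpa using hx
  | zero => intro a; simp
  | add x y _ _ ihx ihy =>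
    intro a
    have h1 := ihx a
    have h2 := ihy (a + x)
    have := AddSubgroup.add_mem _ h2 h1
    rw [show a + (x + y) = a + x + y by abel]
    simpa using this
  | neg x _ ih =>
    intro a
    have h1 := ih (a + -x)
    have := AddSubgroup.neg_mem _ h1
    simpa using this

/-- elements whose coset modulo `R` is fixed by the stabiliser of `0` -/
def thin (G : Subgroup (Perm C)) (hG : Tr G) (R : AddSubgroup C) : AddSubgroup C where
  carrier := {g | ∀ σ ∈ G, σ 0 = 0 → σ g - g ∈ R}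
  zero_mem' := by
    intro σ _ h0
    rw [h0]
    simp
  add_mem' := by
    intro a b ha hb σ hσ h0
    obtain ⟨ρ, hρ, hρ0, h⟩ := conj_mem hG hσ a
    have h1 := hb ρ hρ hρ0
    have h2 := ha σ hσ h0
    rw [h] at h1
    have := R.add_mem h1 h2
    convert this using 1
    abel
  neg_mem' := by
    intro a ha σ hσ h0
    obtain ⟨ρ, hρ, hρ0, h⟩ := conj_mem hG hσ (-a)
    have h1 := ha ρ hρ hρ0
    rw [h] at h1
    have := R.neg_mem h1
    convert this using 1
    rw [neg_add_cancel, h0]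
    abel

lemma mem_thin {G : Subgroup (Perm C)} {hG : Tr G} {R : AddSubgroup C} {g : C} :
    g ∈ thin G hG R ↔ ∀ σ ∈ G, σ 0 = 0 → σ g - g ∈ R := Iff.rfl

/-- permutations acting as a translation modulo `H` -/
def sub (G : Subgroup (Perm C)) (H : AddSubgroup C) : Subgroup (Perm C) where
  carrier := {σ | σ ∈ G ∧ ∃ c, ∀ a, σ a - a - c ∈ H}
  one_mem' := ⟨G.one_mem, 0, fun a => by simp⟩
  mul_mem' := by
    rintro σ τ ⟨hσ, c, hc⟩ ⟨hτ, d, hd⟩
    refine ⟨G.mul_mem hσ hτ, c + d, fun a => ?_⟩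
    have := H.add_mem (hc (τ a)) (hd a)
    convert this using 1
    simp only [Perm.coe_mul, Function.comp_apply]
    abel
  inv_mem' := by
    rintro σ ⟨hσ, c, hc⟩
    refine ⟨G.inv_mem hσ, -c, fun a => ?_⟩
    have := H.neg_mem (hc (σ⁻¹ a))
    convert this using 1
    rw [app_inv]
    abel

lemma sub_le (G : Subgroup (Perm C)) (H : AddSubgroup C) : sub G H ≤ G := fun _ h => h.1

lemma sub_tr {G : Subgroup (Perm C)} (hG : Tr G) (H : AddSubgroup C) : Tr (sub G H) := by
  intro c
  refine ⟨hG c, c, fun a => ?_⟩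
  simp

lemma sub_stab {G : Subgroup (Perm C)} {H : AddSubgroup C} {σ : Perm C} (h : σ ∈ sub G H)
    (h0 : σ 0 = 0) (a : C) : σ a - a ∈ H := by
  obtain ⟨-, c, hc⟩ := h
  have h1 := hc 0
  rw [h0] at h1
  have h2 := H.sub_mem (hc a) h1
  simpa using h2

/-- the key reduction -/
lemma exists_minimal [Finite C] {m : C} (hm0 : m ≠ 0) (hm2 : m + m = 0)
    (huniq : ∀ x : C, x + x = 0 → x = 0 ∨ x = m) {G₀ : Subgroup (Perm C)} (hG₀ : Tr G₀)
    (hmv : ∃ σ ∈ G₀, σ 0 = 0 ∧ σ m ≠ m) :
    ∃ G : Subgroup (Perm C), G ≤ G₀ ∧ Tr G ∧ (∃ σ ∈ G, σ 0 = 0 ∧ σ m ≠ m) ∧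
      ∀ σ ∈ G, σ 0 = 0 → ∀ a, σ a - a ∈ AddSubgroup.closure (orb G m) := by
  classical
  have : Finite (Subgroup (Perm C)) := inferInstance
  let S : Set (Subgroup (Perm C)) := {G | G ≤ G₀ ∧ Tr G ∧ ∃ σ ∈ G, σ 0 = 0 ∧ σ m ≠ m}
  have hS : S.Nonempty := ⟨G₀, le_refl _, hG₀, hmv⟩
  obtain ⟨G, ⟨hGle, hG, hGm⟩, hmin⟩ := (wellFounded_lt (α := Subgroup (Perm C))).has_min S hS
  refine ⟨G, hGle, hG, hGm, ?_⟩
  set H := AddSubgroup.closure (orb G m) with hH
  have horb : Inv G (orb G m) := orb_inv G m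
  have hmH : m ∈ H := AddSubgroup.subset_closure (self_mem_orb G m)
  by_cases hmv' : ∃ σ ∈ sub G H, σ 0 = 0 ∧ σ m ≠ m
  · have hmem : sub G H ∈ S := ⟨(sub_le G H).trans hGle, sub_tr hG H, hmv'⟩
    have hnlt := hmin _ hmem
    have heq : sub G H = G := by
      by_contra hne
      exact hnlt (lt_of_le_of_ne (sub_le G H) hne)
    intro σ hσ h0 a
    rw [← heq] at hσ
    exact sub_stab hσ h0 a
  · exfalso
    push Not at hmv'
    let F : AddSubgroup C := thin (sub G H) (sub_tr hG H) ⊥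
    have hmF : m ∈ F := by
      intro σ hσ h0
      rw [hmv' σ hσ h0]
      simp
    have hFfix : ∀ g ∈ F, ∀ σ ∈ sub G H, σ 0 = 0 → σ g = g := by
      intro g hg σ hσ h0
      have := hg σ hσ h0
      rw [AddSubgroup.mem_bot] at this
      exact sub_eq_zero.1 this
    have hFinv : Inv G (F : Set C) := by
      intro ρ hρ hρ0 g hg σ hσ h0
      rw [AddSubgroup.mem_bot, sub_eq_zero]
      have hτ : ρ⁻¹ * σ * ρ ∈ sub G H := by
        refine ⟨G.mul_mem (G.mul_mem (G.inv_mem hρ) hσ.1) hρ, 0, fun a => ?_⟩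
        have h1 : σ (ρ a) - ρ a ∈ H := sub_stab hσ h0 _
        have h2 := closure_block hG horb (G.inv_mem hρ) h1 (ρ a)
        simpa using h2
      have := hFfix g hg _ hτ (by
        simp only [Perm.coe_mul, Function.comp_apply, hρ0, h0, inv_zero_symm hρ0])
      simp only [Perm.coe_mul, Function.comp_apply] at this
      rwa [Perm.inv_eq_iff_eq] at this
    have hHF : H ≤ F := by
      rw [hH, AddSubgroup.closure_le]
      exact orb_subset hFinv hmF
    obtain ⟨ρ, hρ, hρ0, hρm⟩ := hGm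
    have hρH : ρ m ∈ H := AddSubgroup.subset_closure ⟨ρ, hρ, hρ0, rfl⟩
    have hκ : ρ * Equiv.addRight m * ρ⁻¹ ∈ sub G H := by
      refine ⟨G.mul_mem (G.mul_mem hρ (hG m)) (G.inv_mem hρ), 0, fun a => ?_⟩
      have h2 := closure_block hG horb hρ hmH (ρ⁻¹ a)
      simpa using h2
    obtain ⟨κ, hκ', hκ0, hκ2⟩ := conj_mem (sub_tr hG H) hκ 0
    have h3 := hFfix (ρ m) (hHF hρH) κ hκ' hκ0
    rw [hκ2] at h3
    simp only [Perm.coe_mul, Function.comp_apply, zero_add,
      Equiv.coe_addRight, inv_zero_symm hρ0] at h3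
    rw [inv_app, hm2, hρ0] at h3
    -- 0 - ρ m = ρ m
    have h4 : ρ m + ρ m = 0 := by
      have h5 : ρ m + ρ m = ρ m - (0 - ρ m) := by abel
      rw [h5, h3, sub_self]
    rcases huniq _ h4 with h | h
    · apply hm0
      apply ρ.injective
      rw [h, hρ0]
    · exact hρm h

/-! ### facts on the involution -/

section invol

variable [Finite C] {m : C} (hm0 : m ≠ 0) (hm2 : m + m = 0)
  (huniq : ∀ x : C, x + x = 0 → x = 0 ∨ x = m)

include huniq in
lemma half_eq {y : C} (hy : ¬ Odd (addOrderOf y)) : (addOrderOf y / 2) • y = m := by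
  rw [Nat.not_odd_iff_even] at hy
  obtain ⟨k, hk⟩ := hy
  have hpos : 0 < addOrderOf y := addOrderOf_pos y
  have hk2 : addOrderOf y / 2 = k := by omega
  rw [hk2]
  have h1 : k • y + k • y = 0 := by
    rw [← add_nsmul, ← hk, addOrderOf_nsmul_eq_zero]
  rcases huniq _ h1 with h | h
  · exfalso
    have := addOrderOf_dvd_of_nsmul_eq_zero h
    have := Nat.le_of_dvd (by omega) this
    omega
  · exact h

include huniq in
lemma mem_of_even {R : AddSubgroup C} {y : C} (hyR : y ∈ R) (hy : ¬ Odd (addOrderOf y)) :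
    m ∈ R := by
  rw [← half_eq huniq hy]
  exact R.nsmul_mem hyR _

lemma sub_eq_add_m (hm2 : m + m = 0) (a : C) : a - m = a + m := by
  have : -m = m := by
    rw [neg_eq_iff_add_eq_zero]; exact hm2
  rw [sub_eq_add_neg, this]

include hm2 in
lemma odd_smul_m {p : ℕ} (hp : Odd p) : p • m = m := by
  obtain ⟨k, rfl⟩ := hp
  rw [add_nsmul, one_nsmul, mul_nsmul, two_nsmul, hm2]
  simp

end invol

/-! ### the odd case -/

lemma odd_case [Fintype C] [IsAddCyclic C] {m : C} (hm2 : m + m = 0)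
    (huniq : ∀ x : C, x + x = 0 → x = 0 ∨ x = m) {G : Subgroup (Perm C)} (hG : Tr G)
    (hcos : ∀ σ ∈ G, σ 0 = 0 → ∀ a, σ a - a ∈ AddSubgroup.closure (orb G m))
    {p : ℕ} (hp : p.Prime) (hp2 : p ≠ 2) {e : C} (heH : e ∈ AddSubgroup.closure (orb G m))
    (he0 : e ≠ 0) (hpe : p • e = 0) {T : Set C} (hT : Inv G T) {y : C} (hy : y ∈ T)
    (hyo : ¬ Odd (addOrderOf y)) {x : C} (hx : x ∈ AddSubgroup.zmultiples e) : y + x ∈ T := by
  classical
  by_contra hyx
  set H := AddSubgroup.closure (orb G m) with hH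
  have hpodd : Odd p := hp.odd_of_ne_two hp2
  have : Fact p.Prime := ⟨hp⟩
  let Y : Finset C := Finset.univ.filter (fun y' => y' ∈ T ∧ y' - y ∈ H)
  have hYmem : ∀ z, z ∈ Y ↔ z ∈ T ∧ z - y ∈ H := by
    intro z; simp [Y]
  have hYinv : Inv G (Y : Set C) := by
    intro σ hσ h0 z hz
    rw [Finset.mem_coe, hYmem] at hz ⊢
    refine ⟨hT σ hσ h0 z hz.1, ?_⟩
    have := H.add_mem (hcos σ hσ h0 z) hz.2
    simpa using this
  have hpx : p • x = 0 := by
    obtain ⟨k, rfl⟩ := AddSubgroup.mem_zmultiples_iff.1 hx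
    rw [smul_comm, hpe, smul_zero]
  have hcount : ¬ p ∣ (Y.filter (fun y' => p • y' = p • y)).card := by
    have hle : (Y.filter (fun y' => p • y' = p • y)).card + 1 ≤ p := by
      have h1 : (Finset.univ.filter (fun z : C => p • z = 0)).card ≤ p :=
        IsAddCyclic.card_nsmul_eq_zero_le hp.pos
      refine le_trans ?_ h1
      have h2 : insert x ((Y.filter (fun y' => p • y' = p • y)).image (fun y' => y' - y)) ⊆
          Finset.univ.filter (fun z : C => p • z = 0) := by
        intro z hz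
        rw [Finset.mem_insert, Finset.mem_image] at hz
        rw [Finset.mem_filter]
        refine ⟨Finset.mem_univ _, ?_⟩
        rcases hz with rfl | ⟨y', hy', rfl⟩
        · exact hpx
        · rw [Finset.mem_filter] at hy'
          rw [nsmul_sub, hy'.2, sub_self]
      refine le_trans (le_of_eq ?_) (Finset.card_le_card h2)
      rw [Finset.card_insert_of_notMem, Finset.card_image_of_injective]
      · exact sub_left_injective
      · intro hmem
        obtain ⟨y', hy', hxy⟩ := Finset.mem_image.1 hmem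
        rw [Finset.mem_filter, hYmem] at hy'
        apply hyx
        rw [← hxy, add_sub_cancel]
        exact hy'.1.1
    have hpos : 0 < (Y.filter (fun y' => p • y' = p • y)).card := by
      rw [Finset.card_pos]
      refine ⟨y, Finset.mem_filter.2 ⟨(hYmem y).2 ⟨hy, ?_⟩, rfl⟩⟩
      simp [H.zero_mem]
    intro hdvd
    have := Nat.le_of_dvd hpos hdvd
    omega
  -- p • y is in the thin radical modulo pH
  let R : AddSubgroup C := H.map (nsmulAddMonoidHom p)
  have hthin : p • y ∈ thin G hG R := by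
    intro σ hσ h0
    obtain ⟨y', hy', hy''⟩ := frob_inv p hG hYinv hσ h0 hcount
    rw [hy'', ← nsmul_sub]
    rw [hYmem] at hy'
    exact ⟨y' - y, hy'.2, rfl⟩
  have hmthin : m ∈ thin G hG R := by
    have h1 := (thin G hG R).nsmul_mem hthin (addOrderOf y / 2)
    rw [smul_comm, half_eq huniq hyo, odd_smul_m hm2 hpodd] at h1
    exact h1
  have hHle : H ≤ R ⊔ AddSubgroup.zmultiples m := by
    rw [hH, AddSubgroup.closure_le]
    rintro z ⟨σ, hσ, h0, rfl⟩
    have h1 := hmthin σ hσ h0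
    have h2 : σ m = (σ m - m) + m := by abel
    rw [h2]
    exact AddSubgroup.add_mem _ (AddSubgroup.mem_sup_left h1)
      (AddSubgroup.mem_sup_right (AddSubgroup.mem_zmultiples m))
  -- surjectivity of multiplication by p on 2H
  let H2 : AddSubgroup C := H.map (nsmulAddMonoidHom 2)
  have hmapH2 : ∀ z ∈ H2, p • z ∈ H2 := fun z hz => H2.nsmul_mem hz p
  let f : H2 → H2 := fun z => ⟨p • z.1, hmapH2 z.1 z.2⟩
  have hsurj : Function.Surjective f := by
    rintro ⟨z, h, hh, rfl⟩
    have h1 := hHle hh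
    rw [AddSubgroup.mem_sup] at h1
    obtain ⟨r, ⟨z', hz', rfl⟩, k', hk', hsum⟩ := h1
    obtain ⟨k, rfl⟩ := AddSubgroup.mem_zmultiples_iff.1 hk'
    refine ⟨⟨2 • z', z', hz', rfl⟩, ?_⟩
    apply Subtype.ext
    simp only [f, nsmulAddMonoidHom_apply]
    simp only [nsmulAddMonoidHom_apply] at hsum
    rw [← hsum, nsmul_add, smul_comm 2 k m, two_nsmul m, hm2, smul_zero, add_zero, smul_comm]
  have hinj : Function.Injective f := Finite.injective_iff_surjective.2 hsurj
  have heH2 : e ∈ H2 := by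
    obtain ⟨k, hk⟩ := hpodd
    refine ⟨(k + 1) • e, H.nsmul_mem heH _, ?_⟩
    simp only [nsmulAddMonoidHom_apply]
    rw [← mul_nsmul']
    have : 2 * (k + 1) = p + 1 := by omega
    rw [this, add_nsmul, hpe, one_nsmul, zero_add]
  have := @hinj ⟨e, heH2⟩ ⟨0, H2.zero_mem⟩ (by
    apply Subtype.ext
    simp [f, hpe])
  exact he0 (congrArg Subtype.val this)

/-! ### the 2-group case -/

section two

variable [Fintype C] {m : C} (hm0 : m ≠ 0) (hm2 : m + m = 0)
    (huniq : ∀ x : C, x + x = 0 → x = 0 ∨ x = m) {G : Subgroup (Perm C)} (hG : Tr G)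
    (hcos : ∀ σ ∈ G, σ 0 = 0 → ∀ a, σ a - a ∈ AddSubgroup.closure (orb G m))
    (hmv : ∃ σ ∈ G, σ 0 = 0 ∧ σ m ≠ m)
    (h2 : ∀ e ∈ AddSubgroup.closure (orb G m), e ≠ 0 → ¬ Odd (addOrderOf e))

include huniq hmv in
lemma thin_odd {w : C} (hw : w ∈ thin G hG ⊥) : Odd (addOrderOf w) := by
  by_contra hcon
  have h1 := mem_of_even huniq hw hcon
  obtain ⟨σ, hσ, h0, hne⟩ := hmv
  have := h1 σ hσ h0
  rw [AddSubgroup.mem_bot, sub_eq_zero] at this
  exact hne this

include hm0 hm2 huniq hG hcos h2 in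
lemma claim2 {y : C} (hy : y + m ∉ orb G y) : 2 • y ∈ thin G hG ⊥ := by
  classical
  have : Fact (Nat.Prime 2) := ⟨Nat.prime_two⟩
  set H := AddSubgroup.closure (orb G m) with hH
  let Y : Finset C := Finset.univ.filter (fun y' => y' ∈ orb G y)
  have hYmem : ∀ z, z ∈ Y ↔ z ∈ orb G y := by
    intro z; simp [Y]
  have hYinv : Inv G (Y : Set C) := by
    intro σ hσ h0 z hz
    rw [Finset.mem_coe, hYmem] at hz ⊢
    exact orb_inv G y σ hσ h0 z hz
  have hcount : ¬ 2 ∣ (Y.filter (fun y' => 2 • y' = 2 • y)).card := by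
    have : Y.filter (fun y' => 2 • y' = 2 • y) = {y} := by
      ext z
      rw [Finset.mem_filter, hYmem, Finset.mem_singleton]
      constructor
      · rintro ⟨hz, hzy⟩
        have h3 : (z - y) + (z - y) = 0 := by
          rw [← two_nsmul, nsmul_sub, hzy, sub_self]
        rcases huniq _ h3 with h | h
        · exact sub_eq_zero.1 h
        · exfalso
          apply hy
          have : z = y + m := by rw [← h]; abel
          rwa [← this]
      · rintro rfl
        exact ⟨self_mem_orb G z, rfl⟩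
    rw [this]
    simp
  have hmapsto : ∀ σ ∈ G, σ 0 = 0 → ∃ h ∈ H, σ (2 • y) = 2 • y + 2 • h := by
    intro σ hσ h0
    obtain ⟨y', hy', hy''⟩ := frob_inv 2 hG hYinv hσ h0 hcount
    rw [hYmem] at hy'
    obtain ⟨τ, hτ, hτ0, rfl⟩ := hy'
    refine ⟨τ y - y, hcos τ hτ hτ0 y, ?_⟩
    rw [hy'', ← nsmul_add]
    congr 1
    abel
  let H2 : AddSubgroup C := H.map (nsmulAddMonoidHom 2)
  let D : Set C := {g | ∃ a ∈ orb G (2 • y), ∃ b ∈ orb G (2 • y), g = a - b}
  have hDH2 : D ⊆ H2 := by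
    rintro g ⟨a, ⟨σ, hσ, h0, rfl⟩, b, ⟨τ, hτ, hτ0, rfl⟩, rfl⟩
    obtain ⟨u, hu, hu2⟩ := hmapsto σ hσ h0
    obtain ⟨v, hv, hv2⟩ := hmapsto τ hτ hτ0
    refine ⟨u - v, H.sub_mem hu hv, ?_⟩
    rw [hu2, hv2, nsmulAddMonoidHom_apply, nsmul_sub]
    abel
  have hDinv : Inv G D := by
    rintro σ hσ h0 g ⟨a, ha, b, hb, rfl⟩
    -- g = a - b ;  a - g = b
    have h3 : a - (a - b) ∈ orb G (2 • y) := by
      rw [sub_sub_cancel]; exact hb
    have h4 : σ a - σ (a - b) ∈ orb G (2 • y) :=
      ((orb_inv G (2 • y)).diff hG hσ _ _).2 h3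
    refine ⟨σ a, orb_inv G _ σ hσ h0 a ha, _, h4, ?_⟩
    abel
  set R := AddSubgroup.closure D with hR
  have hRH2 : R ≤ H2 := by
    rw [hR, AddSubgroup.closure_le]; exact hDH2
  have hH2H : H2 ≤ H := by
    rintro _ ⟨h, hh, rfl⟩
    exact H.nsmul_mem hh 2
  have hRinv : Inv G (R : Set C) := by
    intro σ hσ h0 r hr
    have := closure_block hG hDinv hσ hr 0
    rw [h0, zero_add, sub_zero] at this
    exact this
  have hRbot : ∀ r ∈ R, r = 0 := by
    intro r hr
    by_contra hr0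
    have hro := h2 r (hH2H (hRH2 hr)) hr0
    have hmR : m ∈ R := mem_of_even huniq hr hro
    have hHR : H ≤ R := by
      rw [hH, AddSubgroup.closure_le]
      exact orb_subset hRinv hmR
    let f : H → H := fun z => ⟨2 • z.1, H.nsmul_mem z.2 2⟩
    have hsurj : Function.Surjective f := by
      rintro ⟨z, hz⟩
      obtain ⟨w, hw, hwz⟩ := hRH2 (hHR hz)
      refine ⟨⟨w, hw⟩, ?_⟩
      apply Subtype.ext
      exact hwz
    have hinj : Function.Injective f := Finite.injective_iff_surjective.2 hsurj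
    have hmH : m ∈ H := AddSubgroup.subset_closure (self_mem_orb G m)
    have := @hinj ⟨m, hmH⟩ ⟨0, H.zero_mem⟩ (by
      apply Subtype.ext
      simp only [f]
      rw [two_nsmul, hm2, nsmul_zero])
    exact hm0 (congrArg Subtype.val this)
  intro σ hσ h0
  rw [AddSubgroup.mem_bot]
  apply hRbot
  apply AddSubgroup.subset_closure
  exact ⟨_, ⟨σ, hσ, h0, rfl⟩, _, self_mem_orb G _, rfl⟩

include hm2 huniq hmv in
lemma claim3 {y : C} (hy : 2 • y ∈ thin G hG ⊥) :
    y ∈ thin G hG ⊥ ∨ y + m ∈ thin G hG ⊥ := by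
  obtain ⟨k, hk⟩ := thin_odd huniq hG hmv hy
  have hw := (thin G hG ⊥).nsmul_mem hy (k + 1)
  set w := (k + 1) • (2 • y) with hwdef
  have h1 : 2 • w = 2 • y := by
    rw [hwdef, ← mul_nsmul', show 2 * (k + 1) = addOrderOf (2 • y) + 1 by omega, add_nsmul,
      addOrderOf_nsmul_eq_zero, zero_add, one_nsmul]
  have h3 : (y - w) + (y - w) = 0 := by
    rw [← two_nsmul, nsmul_sub, h1, sub_self]
  rcases huniq _ h3 with h | h
  · left
    rw [sub_eq_zero.1 h]
    exact hw
  · right
    have : y + m = w := by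
      have h4 : y = w + m := by rw [← h]; abel
      rw [h4, add_assoc, hm2, add_zero]
    rw [this]
    exact hw

include hm2 hG in
lemma rad_claim {Y : Set C} (hY : Inv G Y) (hYm : ∀ a ∈ Y, a + m ∈ Y) :
    ∀ a ∈ Y, ∀ h ∈ AddSubgroup.closure (orb G m), a + h ∈ Y := by
  let M : AddSubgroup C :=
    { carrier := {g | ∀ a, a ∈ Y ↔ a - g ∈ Y}
      zero_mem' := by intro a; simp
      add_mem' := by
        intro g g' hg hg' a
        rw [hg a, hg' (a - g), sub_sub]
      neg_mem' := by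
        intro g hg a
        have := hg (a - -g)
        rw [sub_neg_eq_add, add_sub_cancel_right] at this
        rw [sub_neg_eq_add]
        exact this.symm }
  have hMinv : Inv G (M : Set C) := by
    intro σ hσ h0 g hg b
    have h1 := hg (σ⁻¹ b)
    have h2 := hY.diff hG hσ g (σ⁻¹ b)
    rw [app_inv] at h2
    rw [h2, ← h1]
    have h3 := hY.iff hσ h0 (σ⁻¹ b)
    rw [app_inv] at h3
    exact h3
  have hmM : m ∈ M := by
    intro a
    rw [sub_eq_add_m hm2]
    refine ⟨hYm a, fun h => ?_⟩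
    have := hYm _ h
    rwa [add_assoc, hm2, add_zero] at this
  have hle : AddSubgroup.closure (orb G m) ≤ M := by
    rw [AddSubgroup.closure_le]
    exact orb_subset hMinv hmM
  intro a ha h hh
  have := hle hh (a + h)
  rw [this]
  simpa using ha

include hm0 hm2 huniq hG hcos hmv h2 in
lemma claim5 {g : C} (hg : g ∈ AddSubgroup.closure (orb G m)) (hg0 : g ≠ 0) : g ∈ orb G m := by
  set H := AddSubgroup.closure (orb G m) with hH
  have hzero : (0 : C) ∉ orb G g := by
    rintro ⟨σ, hσ, h0, h⟩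
    exact hg0 (σ.injective (h.trans h0.symm))
  by_cases hall : ∀ a ∈ orb G g, a + m ∈ orb G g
  · exfalso
    have := rad_claim hm2 hG (orb_inv G g) hall g (self_mem_orb G g) (-g) (H.neg_mem hg)
    rw [add_neg_cancel] at this
    exact hzero this
  · push Not at hall
    obtain ⟨y, hy, hym⟩ := hall
    have hyH : y ∈ H := by
      obtain ⟨σ, hσ, h0, rfl⟩ := hy
      have := H.add_mem (hcos σ hσ h0 g) hg
      simpa using this
    rw [← orb_eq hy] at hym
    have h3 := claim2 hm0 hm2 huniq hG hcos h2 hym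
    rcases claim3 hm2 huniq hG hmv h3 with h | h
    · exfalso
      by_cases hy0 : y = 0
      · subst hy0; exact hzero hy
      · exact h2 y hyH hy0 (thin_odd huniq hG hmv h)
    · have hmH : m ∈ H := AddSubgroup.subset_closure (self_mem_orb G m)
      have hym0 : y + m = 0 := by
        by_contra hne
        exact h2 _ (H.add_mem hyH hmH) hne (thin_odd huniq hG hmv h)
      have hyeq : y = m := by
        have : y = 0 - m := by rw [← hym0]; abel
        rw [this, sub_eq_add_m hm2, zero_add]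
      subst hyeq
      rw [orb_eq hy]
      exact self_mem_orb G g

include hm0 hm2 huniq hG hcos hmv h2 in
lemma two_case {T : Set C} (hT : Inv G T) {y : C} (hy : y ∈ T) (hyo : ¬ Odd (addOrderOf y))
    {x : C} (hx : x ∈ AddSubgroup.closure (orb G m)) :
    y + x ∈ T ∨ Odd (addOrderOf (y + x)) := by
  set H := AddSubgroup.closure (orb G m) with hH
  have hYT : orb G y ⊆ T := orb_subset hT hy
  by_cases hall : ∀ a ∈ orb G y, a + m ∈ orb G y
  · left
    exact hYT (rad_claim hm2 hG (orb_inv G y) hall y (self_mem_orb G y) x hx)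
  · push Not at hall
    obtain ⟨y', hy', hym⟩ := hall
    rw [← orb_eq hy'] at hym
    have h3 := claim2 hm0 hm2 huniq hG hcos h2 hym
    have hyy' : y ∈ orb G y' := by rw [orb_eq hy']; exact self_mem_orb G y
    obtain ⟨σ, hσ, h0, hσy⟩ := hyy'
    rcases claim3 hm2 huniq hG hmv h3 with h | h
    · exfalso
      have := h σ hσ h0
      rw [AddSubgroup.mem_bot, sub_eq_zero, hσy] at this
      subst this
      exact hyo (thin_odd huniq hG hmv h)
    · set w := y' + m with hw
      have hmH : m ∈ H := AddSubgroup.subset_closure (self_mem_orb G m)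
      have hywH : y + x - w ∈ H := by
        have h4 : y - y' ∈ H := by
          rw [← hσy]; exact hcos σ hσ h0 y'
        have h5 := H.sub_mem (H.add_mem h4 hx) hmH
        convert h5 using 1
        rw [hw]; abel
      by_cases hyx : y + x - w = 0
      · right
        rw [sub_eq_zero.1 hyx]
        exact thin_odd huniq hG hmv h
      · left
        obtain ⟨τ, hτ, hτ0, hτm⟩ := claim5 hm0 hm2 huniq hG hcos hmv h2 hywH hyx
        apply hYT
        rw [← orb_eq hy']
        refine ⟨Equiv.addRight w * τ * Equiv.addRight (-w),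
          G.mul_mem (G.mul_mem (hG _) hτ) (hG _), ?_, ?_⟩
        · have h6 := (thin G hG ⊥).neg_mem h τ hτ hτ0
          rw [AddSubgroup.mem_bot, sub_eq_zero] at h6
          simp only [Perm.coe_mul, Function.comp_apply, Equiv.coe_addRight, zero_add]
          rw [h6]; abel
        · simp only [Perm.coe_mul, Function.comp_apply, Equiv.coe_addRight]
          have h7 : y' + -w = m := by
            rw [hw]
            have : y' + -(y' + m) = 0 - m := by abel
            rw [this, sub_eq_add_m hm2, zero_add]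
          rw [h7, hτm]
          abel

include hm0 hm2 huniq hmv h2 in
lemma exists_four : ∃ h ∈ AddSubgroup.closure (orb G m), 2 • h = m := by
  set H := AddSubgroup.closure (orb G m) with hH
  obtain ⟨σ, hσ, h0, hne⟩ := hmv
  have hxH : σ m ∈ H := AddSubgroup.subset_closure ⟨σ, hσ, h0, rfl⟩
  have hx0 : σ m ≠ 0 := by
    intro h
    exact hm0 (σ.injective (h.trans h0.symm))
  set x := σ m with hx
  have hxe := h2 x hxH hx0
  have hhalf := half_eq huniq hxe
  rw [Nat.not_odd_iff_even] at hxe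
  obtain ⟨k, hk⟩ := hxe
  have hpos : 0 < addOrderOf x := addOrderOf_pos x
  -- 2 • x ≠ 0
  have h2x : 2 • x ≠ 0 := by
    intro h
    rw [two_nsmul] at h
    rcases huniq _ h with h | h
    · exact hx0 h
    · exact hne h
  have h2xe := h2 (2 • x) (H.nsmul_mem hxH 2) h2x
  have h2o : addOrderOf (2 • x) = k := by
    rw [addOrderOf_nsmul' x (by norm_num)]
    have : (addOrderOf x).gcd 2 = 2 := by
      rw [Nat.gcd_comm]
      exact Nat.gcd_eq_left ⟨k, by omega⟩
    rw [this]
    omega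
  rw [h2o, Nat.not_odd_iff_even] at h2xe
  obtain ⟨l, hl⟩ := h2xe
  refine ⟨l • x, H.nsmul_mem hxH l, ?_⟩
  rw [← mul_nsmul', ← hhalf]
  congr 1
  omega

end two

/-- the main structural theorem -/
theorem core [Fintype C] [IsAddCyclic C] {m : C} (hm0 : m ≠ 0) (hm2 : m + m = 0)
    (huniq : ∀ x : C, x + x = 0 → x = 0 ∨ x = m) {G₀ : Subgroup (Perm C)} (hG₀ : Tr G₀)
    (hmv : ∃ σ ∈ G₀, σ 0 = 0 ∧ σ m ≠ m) :
    ∃ P : AddSubgroup C, 2 < Nat.card P ∧ ∀ T : Set C, Inv G₀ T → ∀ y ∈ T,
      ¬ Odd (addOrderOf y) → ∀ x ∈ P, y + x ∈ T ∨ Odd (addOrderOf (y + x)) := by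
  obtain ⟨G, hle, hG, hmvG, hcos⟩ := exists_minimal hm0 hm2 huniq hG₀ hmv
  have hTG : ∀ T : Set C, Inv G₀ T → Inv G T := fun T hT σ hσ h0 y hy => hT σ (hle hσ) h0 y hy
  by_cases h2 : ∀ e ∈ AddSubgroup.closure (orb G m), e ≠ 0 → ¬ Odd (addOrderOf e)
  · obtain ⟨h, hh, hhm⟩ := exists_four hm0 hm2 huniq hmvG h2
    refine ⟨AddSubgroup.zmultiples h, ?_, ?_⟩
    · rw [Nat.card_zmultiples]
      have h4 : addOrderOf h = 2 ^ (1 + 1) := by
        have : Fact (Nat.Prime 2) := ⟨Nat.prime_two⟩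
        apply addOrderOf_eq_prime_pow
        · rw [pow_one, hhm]; exact hm0
        · rw [pow_succ, pow_one, mul_nsmul, hhm, two_nsmul, hm2]
      rw [h4]; norm_num
    · intro T hT y hy hyo x hx
      apply two_case hm0 hm2 huniq hG hcos hmvG h2 (hTG T hT) hy hyo
      have : AddSubgroup.zmultiples h ≤ AddSubgroup.closure (orb G m) := by
        rw [AddSubgroup.zmultiples_le]
        exact hh
      exact this hx
  · push Not at h2
    obtain ⟨e, heH, he0, heo⟩ := h2
    have hne1 : addOrderOf e ≠ 1 := by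
      rw [Ne, AddMonoid.addOrderOf_eq_one_iff]; exact he0
    obtain ⟨p, hp, hpd⟩ := Nat.exists_prime_and_dvd hne1
    have hp2 : p ≠ 2 := by
      rintro rfl
      exact (Nat.not_even_iff_odd.2 heo) (even_iff_two_dvd.2 hpd)
    obtain ⟨k, hk⟩ := hpd
    have hpos : 0 < addOrderOf e := addOrderOf_pos e
    have hk0 : 0 < k := by
      rcases Nat.eq_zero_or_pos k with h | h
      · rw [h, mul_zero] at hk; omega
      · exact h
    have hke : k • e ≠ 0 := by
      intro h
      have := Nat.le_of_dvd hk0 (addOrderOf_dvd_of_nsmul_eq_zero h)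
      have h3 := hp.two_le
      nlinarith
    have hpke : p • (k • e) = 0 := by
      rw [← mul_nsmul', ← hk, addOrderOf_nsmul_eq_zero]
    have hord : addOrderOf (k • e) = p := by
      have : Fact p.Prime := ⟨hp⟩
      exact addOrderOf_eq_prime hpke hke
    refine ⟨AddSubgroup.zmultiples (k • e), ?_, ?_⟩
    · rw [Nat.card_zmultiples, hord]
      have := hp.two_le
      omega
    · intro T hT y hy hyo x hx
      left
      exact odd_case hm2 huniq hG hcos hp hp2 ((AddSubgroup.closure (orb G m)).nsmul_mem heH k)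
        hke hpke (hTG T hT) hy hyo hx

end Pool.Agent.Lib_helper67.Circ
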