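import Mathlib

set_option autoImplicit false

namespace Pool.Agent.Lib_helper67.Circ

/-- `shift c S` is `(S \ {c}) + c`; for `c` the involution this is the set `S^*`. -/
def shift {n : ℕ} (c : ZMod n) (S : Set (ZMod n)) : Set (ZMod n) :=
  (fun s => s + c) '' (S \ {c})

/-- `oddPart K` is the set `K_o = K \ 2K`. -/
def oddPart {n : ℕ} (K : AddSubgroup (ZMod n)) : Set (ZMod n) :=
  {x | x ∈ K ∧ ¬ ∃ k ∈ K, x = 2 * k}

/-- The graph `Cay(Z_n, (S \ {c}) + c)` has an automorphism fixing `0` and moving `c`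
(here `c` will be the involution `n / 2`). -/
def MovesInvolution {n : ℕ} (c : ZMod n) (S : Set (ZMod n)) : Prop :=
  ∃ σ : SimpleGraph.circulantGraph (shift c S) ≃g SimpleGraph.circulantGraph (shift c S),
    σ 0 = 0 ∧ σ c ≠ c

/-- `K` has order `2q` with `q` odd and `(S \ K_o) + H ⊆ S ∪ K_o`. -/
def Absorbs {n : ℕ} (S : Set (ZMod n)) (K H : AddSubgroup (ZMod n)) : Prop :=
  (∃ q : ℕ, Odd q ∧ Nat.card K = 2 * q) ∧
    ∀ s ∈ S, s ∉ oddPart K → ∀ x ∈ H, s + x ∈ S ∪ oddPart K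

end Pool.Agent.Lib_helper67.Circ
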