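import Pool.Agent.Lib_helper67.CircMain

set_option autoImplicit false

namespace Pool.Agent.Lib_helper67.Circ

open Equiv SimpleGraph

theorem forward' {n m : ℕ} (hn : n = 2 * m) (hm : 0 < m) {S : Set (ZMod n)}
    (hS : ∀ s ∈ S, -s ∈ S)
    (h : ∃ σ : circulantGraph (shift (m : ZMod n) S) ≃g circulantGraph (shift (m : ZMod n) S),
      σ 0 = 0 ∧ σ (m : ZMod n) ≠ m) :
    ∃ K H : AddSubgroup (ZMod n), (∃ q : ℕ, Odd q ∧ Nat.card K = 2 * q) ∧
      2 < Nat.card H ∧ ∀ s ∈ S, s ∉ oddPart K → ∀ x ∈ H, s + x ∈ S ∪ oddPart K := by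
  subst hn
  exact forward hm hS h

theorem mem_shift' {n m : ℕ} (hn : n = 2 * m) {S : Set (ZMod n)} {t : ZMod n} :
    t ∈ shift (m : ZMod n) S ↔ t + m ∈ S ∧ t ≠ 0 := by
  subst hn
  exact mem_shift

theorem z_m0' {n m : ℕ} (hn : n = 2 * m) (hm : 0 < m) : (m : ZMod n) ≠ 0 := by
  subst hn
  exact z_m0 hm

theorem z_m2' {n m : ℕ} (hn : n = 2 * m) : (m : ZMod n) + m = 0 := by
  subst hn
  exact z_m2

theorem z_uniq' {n m : ℕ} (hn : n = 2 * m) (hm : 0 < m) (x : ZMod n) (hx : x + x = 0) :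
    x = 0 ∨ x = m := by
  subst hn
  exact z_uniq hm x hx

/-- the positive part: `h` a power of two -/
theorem pow_two_case {h : ℕ} (hh : 0 < h) (ha : ∃ a : ℕ, h = 2 ^ a) {S : Set (ZMod (4 * h))}
    (hS : ∀ s ∈ S, -s ∈ S)
    (haut : ∃ σ : circulantGraph (shift ((2 * h : ℕ) : ZMod (4 * h)) S) ≃g
      circulantGraph (shift ((2 * h : ℕ) : ZMod (4 * h)) S),
      σ 0 = 0 ∧ σ ((2 * h : ℕ) : ZMod (4 * h)) ≠ ((2 * h : ℕ) : ZMod (4 * h))) :
    ∃ K : AddSubgroup (ZMod (4 * h)), (∃ q : ℕ, Odd q ∧ Nat.card K = 2 * q) ∧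
      ∀ s ∈ S, s ∉ oddPart K → ∀ x ∈ AddSubgroup.zmultiples ((h : ℕ) : ZMod (4 * h)),
        s + x ∈ S ∪ oddPart K := by
  have hn : 4 * h = 2 * (2 * h) := by ring
  have : NeZero (4 * h) := ⟨by omega⟩
  obtain ⟨K, H, hK, hH, hmain⟩ := forward' hn (by omega) hS haut
  refine ⟨K, hK, ?_⟩
  suffices hle : AddSubgroup.zmultiples ((h : ℕ) : ZMod (4 * h)) ≤ H from
    fun s hs hsK x hx => hmain s hs hsK x (hle hx)
  rw [AddSubgroup.zmultiples_le]
  have hm0 := z_m0' hn (m := 2 * h) (by omega)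
  have hm2 := z_m2' hn (m := 2 * h)
  have huniq := z_uniq' hn (m := 2 * h) (by omega)
  -- no odd elements
  have hodd : ∀ e : ZMod (4 * h), e ≠ 0 → ¬ Odd (addOrderOf e) := by
    intro e he ho
    obtain ⟨a, ha⟩ := ha
    have h1 : addOrderOf e ∣ 4 * h := by
      have := addOrderOf_dvd_card (x := e)
      rwa [ZMod.card] at this
    have h2 : addOrderOf e ∣ 2 ^ (a + 2) := by
      refine h1.trans (dvd_of_eq ?_)
      rw [ha]; ring
    have h3 : Nat.Coprime (addOrderOf e) (2 ^ (a + 2)) :=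
      Nat.Coprime.pow_right _ (Nat.coprime_two_right.2 ho)
    have h4 := Nat.Coprime.eq_one_of_dvd h3 h2
    exact he (AddMonoid.addOrderOf_eq_one_iff.1 h4)
  obtain ⟨x, hxH, hx0, hxm⟩ : ∃ x ∈ H, x ≠ 0 ∧ x ≠ ((2 * h : ℕ) : ZMod (4 * h)) := by
    by_contra hcon
    push Not at hcon
    have hsub : (H : Set (ZMod (4 * h))) ⊆ {0, ((2 * h : ℕ) : ZMod (4 * h))} := by
      intro z hz
      by_cases hz0 : z = 0
      · left; exact hz0
      · right; exact hcon z hz hz0
    have h3 : Nat.card H ≤ 2 := by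
      have h4 := Set.ncard_le_ncard hsub (Set.toFinite _)
      have h5 : ({0, ((2 * h : ℕ) : ZMod (4 * h))} : Set (ZMod (4 * h))).ncard ≤ 2 :=
        Set.ncard_insert_le _ _ |>.trans (by simp)
      rw [← Nat.card_coe_set_eq] at h4
      exact h4.trans h5
    omega
  obtain ⟨u, huH, hu⟩ := exists_four' huniq hxH hx0 hxm (fun e _ he => hodd e he)
  have hmH : ((2 * h : ℕ) : ZMod (4 * h)) ∈ H := by
    rw [← hu]; exact H.nsmul_mem huH 2
  have h5 : (((h : ℕ) : ZMod (4 * h)) - u) + (((h : ℕ) : ZMod (4 * h)) - u) = 0 := by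
    have h6 : ((h : ℕ) : ZMod (4 * h)) + ((h : ℕ) : ZMod (4 * h)) = u + u := by
      rw [← two_nsmul u, hu, ← Nat.cast_add]
      congr 1
      ring
    have h7 : (((h : ℕ) : ZMod (4 * h)) - u) + (((h : ℕ) : ZMod (4 * h)) - u) =
        (((h : ℕ) : ZMod (4 * h)) + ((h : ℕ) : ZMod (4 * h))) - (u + u) := by abel
    rw [h7, h6, sub_self]
  have h8 : ((h : ℕ) : ZMod (4 * h)) = (((h : ℕ) : ZMod (4 * h)) - u) + u := by abel
  rcases huniq _ h5 with h | h
  · rw [h8, h, zero_add]; exact huH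
  · rw [h8, h]; exact H.add_mem hmH huH

section counter

variable {h p m' : ℕ}

/-- the connection set of the counterexample -/
def cS (h p : ℕ) : Set (ZMod (4 * h)) :=
  {x | (2 * p) • x ≠ 0 ∨ x = ((2 * h : ℕ) : ZMod (4 * h))}

lemma c_2h (h p : ℕ) : (2 * p) • ((2 * h : ℕ) : ZMod (4 * h)) = 0 := by
  rw [nsmul_eq_mul, ← Nat.cast_mul, ZMod.natCast_eq_zero_iff]
  exact ⟨p, by ring⟩

lemma c_one (hh : 0 < h) (hp : p.Prime) (hd : p ∣ h) : (2 * p) • (1 : ZMod (4 * h)) ≠ 0 := by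
  rw [nsmul_eq_mul, mul_one, Ne, ZMod.natCast_eq_zero_iff]
  intro hdv
  have h1 := Nat.le_of_dvd (by have := hp.pos; omega) hdv
  have h2 := Nat.le_of_dvd hh hd
  omega

lemma c_zero (hh : 0 < h) : (0 : ZMod (4 * h)) ∉ cS h p := by
  rintro (h1 | h1)
  · exact h1 (nsmul_zero _)
  · exact z_m0' (n := 4 * h) (m := 2 * h) (by ring) (by omega) h1.symm

lemma c_shift : shift ((2 * h : ℕ) : ZMod (4 * h)) (cS h p) = {x | (2 * p) • x ≠ 0} := by
  ext t
  rw [mem_shift' (n := 4 * h) (m := 2 * h) (by ring)]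
  simp only [cS, Set.mem_setOf_eq, nsmul_add, c_2h, add_zero, add_eq_right]
  constructor
  · rintro ⟨h1 | h1, h2⟩
    · exact h1
    · exact absurd h1 h2
  · intro h1
    refine ⟨Or.inl h1, ?_⟩
    rintro rfl
    exact h1 (nsmul_zero _)

lemma c_adj {x y : ZMod (4 * h)} (hxy : (2 * p) • (x - y) ≠ 0) :
    (circulantGraph (cS h p)).Adj x y := by
  rw [circulantGraph_adj]
  refine ⟨?_, Or.inl (Or.inl hxy)⟩
  rintro rfl
  rw [sub_self, nsmul_zero] at hxy
  exact hxy rfl

theorem counter (hh : 0 < h) (hp : p.Prime) (hpo : Odd p) (hd : p ∣ h) :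
    (∀ s ∈ cS h p, -s ∈ cS h p) ∧ (0 : ZMod (4 * h)) ∉ cS h p ∧
    (circulantGraph (cS h p)).Connected ∧ ¬ (circulantGraph (cS h p)).IsBipartite ∧
    (∀ x y, (circulantGraph (cS h p)).neighborSet x = (circulantGraph (cS h p)).neighborSet y →
      x = y) ∧
    (∃ σ : circulantGraph (shift ((2 * h : ℕ) : ZMod (4 * h)) (cS h p)) ≃g
      circulantGraph (shift ((2 * h : ℕ) : ZMod (4 * h)) (cS h p)),
      σ 0 = 0 ∧ σ ((2 * h : ℕ) : ZMod (4 * h)) ≠ ((2 * h : ℕ) : ZMod (4 * h))) ∧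
    ∀ K : AddSubgroup (ZMod (4 * h)), (∃ q : ℕ, Odd q ∧ Nat.card K = 2 * q) →
      ¬ ∀ s ∈ cS h p, s ∉ oddPart K → ∀ x ∈ AddSubgroup.zmultiples ((h : ℕ) : ZMod (4 * h)),
        s + x ∈ cS h p ∪ oddPart K := by
  have hn : 4 * h = 2 * (2 * h) := by ring
  have : NeZero (4 * h) := ⟨by omega⟩
  have hm0 := z_m0' hn (m := 2 * h) (by omega)
  have hm2 := z_m2' hn (m := 2 * h)
  have hmneg : -((2 * h : ℕ) : ZMod (4 * h)) = ((2 * h : ℕ) : ZMod (4 * h)) := by
    rw [neg_eq_iff_add_eq_zero]; exact hm2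
  have h1ne := c_one (h := h) hh hp hd
  refine ⟨?_, c_zero hh, ?_, ?_, ?_, ?_, ?_⟩
  · rintro s (hs | hs)
    · left
      rw [smul_neg, neg_ne_zero]
      exact hs
    · right
      rw [hs, hmneg]
  · have hpre : (circulantGraph (cS h p)).Preconnected := by
      intro x y
      by_cases hxy : (2 * p) • (x - y) = 0
      · have h2 : (circulantGraph (cS h p)).Adj x (x + 1) := by
          apply c_adj
          have : x - (x + 1) = -1 := by abel
          rw [this, smul_neg, neg_ne_zero]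
          exact h1ne
        have h3 : (circulantGraph (cS h p)).Adj (x + 1) y := by
          apply c_adj
          have : x + 1 - y = (x - y) + 1 := by abel
          rw [this, nsmul_add, hxy, zero_add]
          exact h1ne
        exact h2.reachable.trans h3.reachable
      · exact (c_adj hxy).reachable
    exact ⟨hpre⟩
  · rintro ⟨c⟩
    have a1 : (circulantGraph (cS h p)).Adj 1 0 := by
      apply c_adj; rw [sub_zero]; exact h1ne
    have a2 : (circulantGraph (cS h p)).Adj 1 ((2 * h : ℕ) : ZMod (4 * h)) := by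
      apply c_adj; rw [nsmul_sub, c_2h, sub_zero]; exact h1ne
    have a3 : (circulantGraph (cS h p)).Adj ((2 * h : ℕ) : ZMod (4 * h)) 0 := by
      rw [circulantGraph_adj]
      exact ⟨hm0, Or.inl (Or.inr (by rw [sub_zero]))⟩
    have b1 := c.valid a1
    have b2 := c.valid a2
    have b3 := c.valid a3
    have c1 := (c 1).isLt
    have c2 := (c 0).isLt
    have c3 := (c ((2 * h : ℕ) : ZMod (4 * h))).isLt
    rw [Ne, Fin.ext_iff] at b1 b2 b3
    omega
  · intro x y hxy
    by_cases h2 : (2 * p) • (x - y) = 0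
    · have h3 : x + ((2 * h : ℕ) : ZMod (4 * h)) ∈ (circulantGraph (cS h p)).neighborSet x := by
        rw [mem_neighborSet, circulantGraph_adj]
        refine ⟨?_, Or.inr (Or.inr (by abel))⟩
        intro h
        apply hm0
        have := h.symm
        rwa [add_eq_left] at this
      rw [hxy, mem_neighborSet, circulantGraph_adj] at h3
      have h4 : (2 * p) • (y - (x + ((2 * h : ℕ) : ZMod (4 * h)))) = 0 := by
        have : y - (x + ((2 * h : ℕ) : ZMod (4 * h))) =
          -(x - y) - ((2 * h : ℕ) : ZMod (4 * h)) := by abel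
        rw [this, nsmul_sub, smul_neg, h2, c_2h, neg_zero, sub_zero]
      have h5 : (2 * p) • ((x + ((2 * h : ℕ) : ZMod (4 * h))) - y) = 0 := by
        have : (x + ((2 * h : ℕ) : ZMod (4 * h))) - y =
          (x - y) + ((2 * h : ℕ) : ZMod (4 * h)) := by abel
        rw [this, nsmul_add, h2, c_2h, zero_add]
      rcases h3.2 with (h6 | h6) | (h6 | h6)
      · exact absurd h4 h6
      · -- y - (x + 2h) = 2h
        have h7 : y = x + (((2 * h : ℕ) : ZMod (4 * h)) + ((2 * h : ℕ) : ZMod (4 * h))) := by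
          have : y = (y - (x + ((2 * h : ℕ) : ZMod (4 * h)))) +
            (x + ((2 * h : ℕ) : ZMod (4 * h))) := by abel
          rw [this, h6]; abel
        rw [h7, hm2, add_zero]
      · exact absurd h5 h6
      · have h7 : x = y + (((x + ((2 * h : ℕ) : ZMod (4 * h))) - y) -
            ((2 * h : ℕ) : ZMod (4 * h))) := by abel
        rw [h7, h6, sub_self, add_zero]
    · exfalso
      have h3 : y ∈ (circulantGraph (cS h p)).neighborSet x := by
        rw [mem_neighborSet]; exact c_adj h2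
      rw [hxy, mem_neighborSet] at h3
      exact h3.ne rfl
  · rw [c_shift]
    obtain ⟨m', hm'⟩ := hd
    have hp3 : 3 ≤ p := by
      rcases hpo with ⟨k, hk⟩
      have := hp.two_le
      omega
    have hm'pos : 0 < m' := by
      rcases Nat.eq_zero_or_pos m' with h0 | h0
      · rw [h0, mul_zero] at hm'; omega
      · exact h0
    have hlt : 4 * m' < 4 * h := by nlinarith
    set g : ZMod (4 * h) := ((4 * m' : ℕ) : ZMod (4 * h)) with hg
    have hg0 : (2 * p) • g = 0 := by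
      rw [hg, nsmul_eq_mul, ← Nat.cast_mul, ZMod.natCast_eq_zero_iff]
      exact ⟨2, by rw [hm']; ring⟩
    have hgne0 : g ≠ 0 := by
      rw [hg, Ne, ZMod.natCast_eq_zero_iff]
      intro hdv
      have := Nat.le_of_dvd (by omega) hdv
      omega
    have hgne : g ≠ ((2 * h : ℕ) : ZMod (4 * h)) := by
      rw [hg, Ne, ZMod.natCast_eq_natCast_iff]
      intro hmod
      have := Nat.ModEq.eq_of_lt_of_lt hmod hlt (by omega)
      rw [hm'] at this
      nlinarith
    let σ : Perm (ZMod (4 * h)) := Equiv.swap ((2 * h : ℕ) : ZMod (4 * h)) g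
    have hσ : ∀ x, (2 * p) • σ x = (2 * p) • x := by
      intro x
      by_cases h1 : x = ((2 * h : ℕ) : ZMod (4 * h))
      · rw [h1, Equiv.swap_apply_left, hg0, c_2h]
      · by_cases h2 : x = g
        · rw [h2, Equiv.swap_apply_right, hg0, c_2h]
        · rw [Equiv.swap_apply_of_ne_of_ne h1 h2]
    refine ⟨⟨σ, fun {x y} => adj_of (fun x y => ?_) x y⟩, ?_, ?_⟩
    · simp only [Set.mem_setOf_eq, nsmul_sub, hσ]
    · exact Equiv.swap_apply_of_ne_of_ne hm0.symm hgne0.symm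
    · change σ _ ≠ _
      rw [Equiv.swap_apply_left]
      exact hgne
  · rintro K ⟨q, hq, hKq⟩ hall
    have hpos := hp.pos
    have hh4 : ∀ r : ℕ, Odd r → (2 * r) • ((h : ℕ) : ZMod (4 * h)) ≠ 0 := by
      intro r hr
      rw [nsmul_eq_mul, ← Nat.cast_mul, Ne, ZMod.natCast_eq_zero_iff]
      rintro ⟨c, hc⟩
      have h2 : 2 * r = 4 * c := by
        apply Nat.eq_of_mul_eq_mul_right hh
        rw [hc]; ring
      obtain ⟨k, hk⟩ := hr
      omega
    have hhS : ((h : ℕ) : ZMod (4 * h)) ∈ cS h p := Or.inl (hh4 p hpo)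
    have hhK : ((h : ℕ) : ZMod (4 * h)) ∉ oddPart K := by
      rintro ⟨hk, -⟩
      apply hh4 q hq
      have := card_nsmul_eq_zero' (G := K) (x := ⟨_, hk⟩)
      rw [hKq] at this
      exact congrArg Subtype.val this
    have := hall _ hhS hhK _ (AddSubgroup.neg_mem _ (AddSubgroup.mem_zmultiples _))
    rw [add_neg_cancel] at this
    rcases this with h1 | h1
    · exact c_zero hh h1
    · exact h1.2 ⟨0, K.zero_mem, by rw [mul_zero]⟩

end counter

end Pool.Agent.Lib_helper67.Circ
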