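import Pool.Agent.Lib_helper67.CircDefs
import Pool.Agent.Lib_helper67.CircCore

set_option autoImplicit false

namespace Pool.Agent.Lib_helper67.Circ

open Equiv SimpleGraph

section general

variable {C : Type*} [AddCommGroup C]

/-- automorphisms of a circulant graph as a group of permutations -/
def autG (T : Set C) : Subgroup (Perm C) where
  carrier := {σ | ∀ x y, (circulantGraph T).Adj (σ x) (σ y) ↔ (circulantGraph T).Adj x y}
  one_mem' := by intro x y; rfl
  mul_mem' := by
    intro σ τ hσ hτ x y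
    rw [Perm.coe_mul, Function.comp_apply, Function.comp_apply, hσ, hτ]
  inv_mem' := by
    intro σ hσ x y
    have := hσ (σ⁻¹ x) (σ⁻¹ y)
    rw [app_inv, app_inv] at this
    exact this.symm

lemma autG_tr (T : Set C) : Tr (autG T) := by
  intro c x y
  simp [circulantGraph_adj]

lemma autG_inv {T : Set C} (h0 : (0 : C) ∉ T) (hneg : ∀ t ∈ T, -t ∈ T) : Inv (autG T) T := by
  intro σ hσ hσ0 t ht
  have h1 : (circulantGraph T).Adj t 0 := by
    rw [circulantGraph_adj]
    refine ⟨?_, Or.inl (by simpa using ht)⟩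
    rintro rfl
    exact h0 ht
  rw [← hσ t 0, hσ0, circulantGraph_adj] at h1
  rcases h1.2 with h | h
  · simpa using h
  · simpa using hneg _ h

/-- transfer principle for the known direction -/
lemma aut_of {T : Set C} {L H : AddSubgroup C}
    (hT : ∀ t ∈ T, t ∉ L → ∀ x ∈ H, t + x ∈ T ∨ t + x ∈ L) (σ : Perm C)
    (hδ : ∀ x, σ x - x ∈ H) (h1 : ∀ x y, y - x ∈ L → σ y - σ x = y - x)
    (h2 : ∀ x y, σ y - σ x ∈ L → σ y - σ x = y - x) (x y : C) :
    σ y - σ x ∈ T ↔ y - x ∈ T := by
  by_cases hl : y - x ∈ L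
  · rw [h1 x y hl]
  by_cases hl' : σ y - σ x ∈ L
  · rw [h2 x y hl']
  have hd : (σ y - σ x) - (y - x) ∈ H := by
    have := H.sub_mem (hδ y) (hδ x)
    convert this using 1
    abel
  constructor
  · intro h
    rcases hT _ h hl' _ (H.neg_mem hd) with h3 | h3
    · simpa using h3
    · exfalso; apply hl; simpa using h3
  · intro h
    rcases hT _ h hl _ hd with h3 | h3
    · simpa using h3
    · exfalso; apply hl'; simpa using h3

lemma adj_of {T : Set C} {σ : Perm C} (h : ∀ x y, σ y - σ x ∈ T ↔ y - x ∈ T) (x y : C) :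
    (circulantGraph T).Adj (σ x) (σ y) ↔ (circulantGraph T).Adj x y := by
  rw [circulantGraph_adj, circulantGraph_adj, h, h, σ.injective.eq_iff]

/-- a subgroup without odd elements containing a further element contains a square root of `m` -/
lemma exists_four' [Finite C] {m : C}
    (huniq : ∀ x : C, x + x = 0 → x = 0 ∨ x = m) {H : AddSubgroup C} {x : C} (hxH : x ∈ H)
    (hx0 : x ≠ 0) (hne : x ≠ m) (h2 : ∀ e ∈ H, e ≠ 0 → ¬ Odd (addOrderOf e)) :
    ∃ h ∈ H, 2 • h = m := by
  have hxe := h2 x hxH hx0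
  have hhalf := half_eq huniq hxe
  rw [Nat.not_odd_iff_even] at hxe
  obtain ⟨k, hk⟩ := hxe
  have hpos : 0 < addOrderOf x := addOrderOf_pos x
  have h2x : 2 • x ≠ 0 := by
    intro h
    rw [two_nsmul] at h
    rcases huniq _ h with h | h
    · exact hx0 h
    · exact hne h
  have h2xe := h2 (2 • x) (H.nsmul_mem hxH 2) h2x
  have h2o : addOrderOf (2 • x) = k := by
    rw [addOrderOf_nsmul' x (by norm_num)]
    have : (addOrderOf x).gcd 2 = 2 := by
      rw [Nat.gcd_comm]
      exact Nat.gcd_eq_left ⟨k, by omega⟩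
    rw [this]
    omega
  rw [h2o, Nat.not_odd_iff_even] at h2xe
  obtain ⟨l, hl⟩ := h2xe
  refine ⟨l • x, H.nsmul_mem hxH l, ?_⟩
  rw [← mul_nsmul', ← hhalf]
  congr 1
  omega

/-- odd order elements are closed under addition (commutative group) -/
lemma odd_add [Finite C] {x y : C} (hx : Odd (addOrderOf x)) (hy : Odd (addOrderOf y)) :
    Odd (addOrderOf (x + y)) := by
  have h1 : (addOrderOf x * addOrderOf y) • (x + y) = 0 := by
    rw [nsmul_add]
    have h2 : (addOrderOf x * addOrderOf y) • x = 0 := by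
      rw [mul_comm, mul_nsmul', addOrderOf_nsmul_eq_zero, nsmul_zero]
    have h3 : (addOrderOf x * addOrderOf y) • y = 0 := by
      rw [mul_nsmul', addOrderOf_nsmul_eq_zero, nsmul_zero]
    rw [h2, h3, add_zero]
  exact (hx.mul hy).of_dvd_nat (addOrderOf_dvd_of_nsmul_eq_zero h1)

lemma odd_neg [Finite C] {x : C} (hx : Odd (addOrderOf x)) : Odd (addOrderOf (-x)) := by
  rwa [addOrderOf_neg]

lemma odd_of_nsmul [Finite C] {x : C} {q : ℕ} (hq : Odd q) (h : q • x = 0) :
    Odd (addOrderOf x) := hq.of_dvd_nat (addOrderOf_dvd_of_nsmul_eq_zero h)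

/-- a converse construction: an automorphism moving `m` -/
lemma exists_aut [Finite C] {m : C} (hm0 : m ≠ 0) (hm2 : m + m = 0)
    (huniq : ∀ x : C, x + x = 0 → x = 0 ∨ x = m) {T : Set C} {L H : AddSubgroup C}
    (hL : ∀ l ∈ L, Odd (addOrderOf l)) (hH : 2 < Nat.card H)
    (hT : ∀ t ∈ T, t ∉ L → ∀ x ∈ H, t + x ∈ T ∨ t + x ∈ L) :
    ∃ σ : Perm C, (∀ x y, σ y - σ x ∈ T ↔ y - x ∈ T) ∧ σ 0 = 0 ∧ σ m ≠ m := by
  classical
  have hmo : ¬ Odd (addOrderOf m) := by
    have h1 : addOrderOf m ∣ 2 := by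
      apply addOrderOf_dvd_of_nsmul_eq_zero
      rw [two_nsmul, hm2]
    intro h
    rcases (Nat.dvd_prime Nat.prime_two).1 h1 with h3 | h3
    · exact hm0 (AddMonoid.addOrderOf_eq_one_iff.1 h3)
    · rw [h3] at h
      exact absurd h (by decide)
  have hmneg : -m = m := by
    rw [neg_eq_iff_add_eq_zero]; exact hm2
  by_cases hodd : ∃ e ∈ H, e ≠ 0 ∧ Odd (addOrderOf e)
  · obtain ⟨e, heH, he0, heo⟩ := hodd
    let M : AddSubgroup C := L ⊔ AddSubgroup.zmultiples e
    have hMo : ∀ z ∈ M, Odd (addOrderOf z) := by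
      intro z hz
      obtain ⟨l, hl, w, hw, rfl⟩ := AddSubgroup.mem_sup.1 hz
      apply odd_add (hL l hl)
      obtain ⟨k, rfl⟩ := AddSubgroup.mem_zmultiples_iff.1 hw
      apply odd_of_nsmul heo
      rw [smul_comm, addOrderOf_nsmul_eq_zero, smul_zero]
    have heM : e ∈ M := AddSubgroup.mem_sup_right (AddSubgroup.mem_zmultiples e)
    have hLM : L ≤ M := le_sup_left
    have hmM : m ∉ M := fun h => hmo (hMo m h)
    have hadd : ∀ x, x + e - m ∈ M ↔ x - m ∈ M := by
      intro x
      have : x + e - m = (x - m) + e := by abel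
      rw [this]
      exact M.add_mem_cancel_right heM
    let σ : Perm C :=
      { toFun := fun x => if x - m ∈ M then x + e else x
        invFun := fun x => if x - m ∈ M then x - e else x
        left_inv := by
          intro x
          by_cases hx : x - m ∈ M
          · simp only [hx, if_true, (hadd x).2 hx, add_sub_cancel_right]
          · simp only [hx, if_false]
        right_inv := by
          intro x
          by_cases hx : x - m ∈ M
          · have : x - e - m ∈ M := by
              rw [← hadd]; simpa using hx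
            simp only [hx, if_true, this, sub_add_cancel]
          · simp only [hx, if_false] }
    have hσ : ∀ x, σ x = if x - m ∈ M then x + e else x := fun x => rfl
    have hcls : ∀ x, σ x - m ∈ M ↔ x - m ∈ M := by
      intro x
      rw [hσ]
      by_cases hx : x - m ∈ M
      · simp only [hx, if_true, hadd]
      · simp only [hx, if_false]
    have hsame : ∀ x y, (x - m ∈ M ↔ y - m ∈ M) → σ y - σ x = y - x := by
      intro x y hxy
      rw [hσ, hσ]
      by_cases hx : x - m ∈ M
      · have hy := hxy.1 hx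
        simp only [hx, hy, if_true]
        abel
      · have hy : y - m ∉ M := fun h => hx (hxy.2 h)
        simp only [hx, hy, if_false]
    have hcong : ∀ x y : C, y - x ∈ M → (x - m ∈ M ↔ y - m ∈ M) := by
      intro x y hxy
      have : y - m = (x - m) + (y - x) := by abel
      rw [this]
      exact (M.add_mem_cancel_right hxy).symm
    refine ⟨σ, ?_, ?_, ?_⟩
    · apply aut_of hT σ
      · intro x
        rw [hσ]
        by_cases hx : x - m ∈ M
        · simp only [hx, if_true, add_sub_cancel_left]; exact heH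
        · simp only [hx, if_false, sub_self]; exact H.zero_mem
      · intro x y hxy
        exact hsame x y (hcong x y (hLM hxy))
      · intro x y hxy
        apply hsame
        have := hcong _ _ (hLM hxy)
        rwa [hcls, hcls] at this
    · rw [hσ, zero_sub, hmneg, if_neg hmM]
    · rw [hσ, sub_self, if_pos M.zero_mem]
      intro h
      exact he0 (by simpa using h)
  · push Not at hodd
    have h2 : ∀ e ∈ H, e ≠ 0 → ¬ Odd (addOrderOf e) := fun e he he0 => hodd e he he0
    -- an element of H different from 0 and m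
    obtain ⟨x, hxH, hx0, hxm⟩ : ∃ x ∈ H, x ≠ 0 ∧ x ≠ m := by
      by_contra hcon
      push Not at hcon
      have hsub : (H : Set C) ⊆ {0, m} := by
        intro z hz
        by_cases hz0 : z = 0
        · left; exact hz0
        · right; exact hcon z hz hz0
      have h3 : Nat.card H ≤ 2 := by
        have h4 := Set.ncard_le_ncard hsub (Set.toFinite _)
        have h5 : ({0, m} : Set C).ncard ≤ 2 := Set.ncard_insert_le _ _ |>.trans (by simp)
        rw [← Nat.card_coe_set_eq] at h4
        exact h4.trans h5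
      omega
    obtain ⟨h, hhH, hhm⟩ := exists_four' huniq hxH hx0 hxm h2
    have hho : ¬ Odd (addOrderOf h) := by
      apply h2 h hhH
      rintro rfl
      apply hm0
      rw [← hhm, nsmul_zero]
    have hmh : m - h = h := by
      rw [← hhm, two_nsmul]; abel
    have hhL : h ∉ L := fun h' => hho (hL h h')
    have hmL : m ∉ L := fun h' => hmo (hL m h')
    have hexcl : ∀ x, x - m ∈ L → x - h ∉ L := by
      intro x h3 h4
      apply hhL
      have := L.sub_mem h4 h3
      have h5 : x - h - (x - m) = m - h := by abel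
      rw [h5, hmh] at this
      exact this
    have e1 : ∀ x, x - h - h = x - m := by
      intro x
      rw [← hhm, two_nsmul]; abel
    have e2 : ∀ x, x + h - m = x - h := by
      intro x
      rw [← hhm, two_nsmul]; abel
    let f : C → C := fun x => if x - m ∈ L then x - h else if x - h ∈ L then x + h else x
    have hf : Function.Involutive f := by
      intro x
      by_cases h3 : x - m ∈ L
      · have h4 : x - h - m ∉ L := by
          intro h5
          exact hexcl _ h5 (by rw [e1]; exact h3)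
        simp only [f, h3, if_true, h4, if_false, e1, sub_add_cancel]
      · by_cases h4 : x - h ∈ L
        · simp only [f, h3, if_false, h4, if_true, e2, add_sub_cancel_right]
        · simp only [f, h3, if_false, h4]
    let σ : Perm C := hf.toPerm
    have hσ : ∀ x, σ x = if x - m ∈ L then x - h else if x - h ∈ L then x + h else x :=
      fun x => rfl
    have hσσ : ∀ x, σ (σ x) = x := fun x => hf x
    have hcong : ∀ (c x y : C), y - x ∈ L → (x - c ∈ L ↔ y - c ∈ L) := by
      intro c x y hxy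
      have : y - c = (x - c) + (y - x) := by abel
      rw [this]
      exact (L.add_mem_cancel_right hxy).symm
    have hsame : ∀ x y, y - x ∈ L → σ y - σ x = y - x := by
      intro x y hxy
      have c1 := hcong m x y hxy
      have c2 := hcong h x y hxy
      rw [hσ, hσ]
      by_cases h3 : x - m ∈ L
      · have h3' := c1.1 h3
        simp only [h3, h3', if_true]; abel
      · have h3' : y - m ∉ L := fun h' => h3 (c1.2 h')
        by_cases h4 : x - h ∈ L
        · have h4' := c2.1 h4
          simp only [h3, h3', h4, h4', if_true, if_false]; abel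
        · have h4' : y - h ∉ L := fun h' => h4 (c2.2 h')
          simp only [h3, h3', h4, h4', if_false]
    refine ⟨σ, ?_, ?_, ?_⟩
    · apply aut_of hT σ
      · intro x
        rw [hσ]
        by_cases h3 : x - m ∈ L
        · simp only [h3, if_true]
          have : x - h - x = -h := by abel
          rw [this]; exact H.neg_mem hhH
        · by_cases h4 : x - h ∈ L
          · simp only [h3, if_false, h4, if_true, add_sub_cancel_left]; exact hhH
          · simp only [h3, if_false, h4, sub_self]; exact H.zero_mem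
      · exact hsame
      · intro x y hxy
        have := hsame _ _ hxy
        rw [hσσ, hσσ] at this
        exact this.symm
    · rw [hσ, zero_sub, hmneg, if_neg hmL, zero_sub, if_neg]
      intro h'
      exact hhL (by simpa using L.neg_mem h')
    · rw [hσ, sub_self, if_pos L.zero_mem, hmh]
      rintro h'
      apply hm0
      have : h + h = m := by rw [← two_nsmul]; exact hhm
      rw [h'] at this
      simpa using this

end general

/-! ### specialisation to `ZMod (2 * m)` -/

section zmod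

variable {m : ℕ} (hm : 0 < m)

include hm in
lemma z_m0 : (m : ZMod (2 * m)) ≠ 0 := by
  intro h
  rw [ZMod.natCast_eq_zero_iff] at h
  have := Nat.le_of_dvd hm h
  omega

lemma z_m2 : (m : ZMod (2 * m)) + m = 0 := by
  have h : 2 * m ∣ m + m := ⟨1, by ring⟩
  have := (ZMod.natCast_eq_zero_iff (m + m) (2 * m)).2 h
  rwa [Nat.cast_add] at this

include hm in
lemma z_uniq (x : ZMod (2 * m)) (hx : x + x = 0) : x = 0 ∨ x = m := by
  have : NeZero (2 * m) := ⟨by omega⟩
  have hval : ((x.val : ℕ) : ZMod (2 * m)) = x := ZMod.natCast_zmod_val x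
  have h1 : ((x.val + x.val : ℕ) : ZMod (2 * m)) = 0 := by
    rw [Nat.cast_add, hval, hx]
  rw [ZMod.natCast_eq_zero_iff] at h1
  have h2 : m ∣ x.val := by
    obtain ⟨c, hc⟩ := h1
    exact ⟨c, by nlinarith⟩
  obtain ⟨k, hk⟩ := h2
  have hlt : x.val < 2 * m := ZMod.val_lt x
  have hk2 : k < 2 := by
    by_contra hcon
    push Not at hcon
    nlinarith
  interval_cases k
  · left
    rw [← hval, hk]
    simp
  · right
    rw [← hval, hk]
    simp

include hm in
lemma K_exists : ∃ (b : ℕ) (K : AddSubgroup (ZMod (2 * m))), Odd b ∧ Nat.card K = 2 * b ∧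
    (∀ x, x ∈ K ↔ (2 * b) • x = 0) ∧ (∀ x : ZMod (2 * m), Odd (addOrderOf x) → b • x = 0) := by
  have : NeZero (2 * m) := ⟨by omega⟩
  obtain ⟨k, b, hb, hmb⟩ := Nat.exists_eq_two_pow_mul_odd (n := m) (by omega)
  -- m = 2 ^ k * b
  have hN : 2 * m = 2 ^ k * (2 * b) := by rw [hmb]; ring
  have hbpos : 0 < b := hb.pos
  refine ⟨b, AddSubgroup.zmultiples ((2 ^ k : ℕ) : ZMod (2 * m)), hb, ?_, ?_, ?_⟩
  · rw [Nat.card_zmultiples, ZMod.addOrderOf_coe _ (by omega)]
    have : (2 * m).gcd (2 ^ k) = 2 ^ k := by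
      rw [Nat.gcd_comm]
      exact Nat.gcd_eq_left ⟨2 * b, hN⟩
    rw [this, hN]
    exact Nat.mul_div_cancel_left _ (by positivity)
  · intro x
    constructor
    · intro hx
      obtain ⟨j, rfl⟩ := AddSubgroup.mem_zmultiples_iff.1 hx
      rw [smul_comm]
      have : (2 * b) • ((2 ^ k : ℕ) : ZMod (2 * m)) = 0 := by
        rw [nsmul_eq_mul, ← Nat.cast_mul, mul_comm (2 * b), ← hN, ZMod.natCast_self]
      rw [this, smul_zero]
    · intro hx
      have hval : ((x.val : ℕ) : ZMod (2 * m)) = x := ZMod.natCast_zmod_val x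
      have h1 : ((2 * b * x.val : ℕ) : ZMod (2 * m)) = 0 := by
        rw [Nat.cast_mul, hval, ← nsmul_eq_mul]
        exact hx
      rw [ZMod.natCast_eq_zero_iff] at h1
      have h2 : 2 ^ k ∣ x.val := by
        apply Nat.dvd_of_mul_dvd_mul_left (k := 2 * b) (by omega)
        rw [mul_comm (2 * b) (2 ^ k), ← hN]
        exact h1
      obtain ⟨j, hj⟩ := h2
      rw [AddSubgroup.mem_zmultiples_iff]
      refine ⟨j, ?_⟩
      rw [← hval, hj]
      rw [zsmul_eq_mul, Int.cast_natCast, Nat.cast_mul]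
      exact mul_comm _ _
  · intro x hx
    rw [← addOrderOf_dvd_iff_nsmul_eq_zero]
    have h0 : addOrderOf x ∣ 2 * m := by
      have := addOrderOf_dvd_card (x := x)
      rwa [ZMod.card] at this
    have h1 : addOrderOf x ∣ 2 ^ k * (2 * b) := h0.trans (dvd_of_eq hN)
    have h2 : Nat.Coprime (addOrderOf x) (2 ^ k) := Nat.Coprime.pow_right _ (Nat.coprime_two_right.2 hx)
    have h3 : addOrderOf x ∣ 2 * b := h2.dvd_of_dvd_mul_left h1
    exact (Nat.coprime_two_right.2 hx).dvd_of_dvd_mul_left h3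

lemma mem_shift {m : ℕ} {S : Set (ZMod (2 * m))} {t : ZMod (2 * m)} :
    t ∈ shift (m : ZMod (2 * m)) S ↔ t + m ∈ S ∧ t ≠ 0 := by
  unfold shift
  constructor
  · rintro ⟨s, ⟨hs, hsm⟩, rfl⟩
    simp only
    rw [add_assoc, z_m2, add_zero]
    refine ⟨hs, fun h => hsm ?_⟩
    have h1 : s = s + m + m := by rw [add_assoc, z_m2, add_zero]
    rw [Set.mem_singleton_iff, h1, h, zero_add]
  · rintro ⟨h1, h2⟩
    refine ⟨t + m, ⟨h1, fun h => h2 ?_⟩, by simp only; rw [add_assoc, z_m2, add_zero]⟩
    rw [Set.mem_singleton_iff] at h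
    simpa using h

lemma shift_zero {m : ℕ} {S : Set (ZMod (2 * m))} : (0 : ZMod (2 * m)) ∉ shift (m : ZMod (2 * m)) S := by
  intro h
  exact (mem_shift.1 h).2 rfl

lemma z_neg_m {m : ℕ} : -(m : ZMod (2 * m)) = m := by
  rw [neg_eq_iff_add_eq_zero]; exact z_m2

lemma shift_neg {m : ℕ} {S : Set (ZMod (2 * m))} (hS : ∀ s ∈ S, -s ∈ S) :
    ∀ t ∈ shift (m : ZMod (2 * m)) S, -t ∈ shift (m : ZMod (2 * m)) S := by
  intro t ht
  rw [mem_shift] at ht ⊢
  refine ⟨?_, fun h => ht.2 (neg_eq_zero.1 h)⟩
  have := hS _ ht.1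
  rwa [neg_add, z_neg_m] at this

include hm in
theorem forward {S : Set (ZMod (2 * m))} (hS : ∀ s ∈ S, -s ∈ S)
    (h : ∃ σ : circulantGraph (shift (m : ZMod (2 * m)) S) ≃g
      circulantGraph (shift (m : ZMod (2 * m)) S), σ 0 = 0 ∧ σ (m : ZMod (2 * m)) ≠ m) :
    ∃ K H : AddSubgroup (ZMod (2 * m)), (∃ q : ℕ, Odd q ∧ Nat.card K = 2 * q) ∧
      2 < Nat.card H ∧ ∀ s ∈ S, s ∉ oddPart K → ∀ x ∈ H, s + x ∈ S ∪ oddPart K := by
  have : NeZero (2 * m) := ⟨by omega⟩
  obtain ⟨T, hT⟩ : ∃ T, T = shift (m : ZMod (2 * m)) S := ⟨_, rfl⟩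
  rw [← hT] at h
  obtain ⟨σ, hσ0, hσm⟩ := h
  have hmem : σ.toEquiv ∈ autG T := by
    intro x y
    exact σ.map_adj_iff
  obtain ⟨P, hP, hmain⟩ := core (z_m0 hm) z_m2 (z_uniq hm) (autG_tr T)
    ⟨σ.toEquiv, hmem, by exact hσ0, by exact hσm⟩
  obtain ⟨b, K, hb, hK, hKmem, hodd⟩ := K_exists hm
  have hbm : b • (m : ZMod (2 * m)) = m := odd_smul_m z_m2 hb
  have key : ∀ t : ZMod (2 * m), Odd (addOrderOf t) → t + m ∈ oddPart K := by
    intro t ht
    have h1 := hodd t ht
    refine ⟨?_, ?_⟩
    · rw [hKmem, nsmul_add, mul_nsmul', mul_nsmul', h1, hbm, nsmul_zero, zero_add, two_nsmul]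
      exact z_m2
    · rintro ⟨k, hk, hkt⟩
      have h2 : b • (t + m) = 0 := by
        rw [hkt, ← (hKmem k).1 hk, nsmul_eq_mul, nsmul_eq_mul]
        push_cast
        ring
      rw [nsmul_add, h1, hbm, zero_add] at h2
      exact z_m0 hm h2
  refine ⟨K, P, ⟨b, hb, hK⟩, hP, ?_⟩
  intro s hs hsK x hx
  have hs0 : s + m ≠ 0 := by
    intro h
    apply hsK
    have h1 := key 0 (by simp)
    have h2 : s = m := by
      have h3 : s = s + m + m := by rw [add_assoc, z_m2, add_zero]
      rw [h3, h, zero_add]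
    rw [h2]
    simpa using h1
  have hsm : s + m + m = s := by rw [add_assoc, z_m2, add_zero]
  have hsT : s + m ∈ T := by
    rw [hT, mem_shift, hsm]
    exact ⟨hs, hs0⟩
  have hne : ¬ Odd (addOrderOf (s + m)) := by
    intro h
    apply hsK
    have := key _ h
    rwa [hsm] at this
  have hcomm : s + m + x + m = s + x := by
    rw [add_right_comm, hsm]
  have hinv : Inv (autG T) T := by
    rw [hT]; exact autG_inv shift_zero (shift_neg hS)
  rcases hmain T hinv _ hsT hne x hx with h | h
  · left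
    rw [hT, mem_shift] at h
    rw [← hcomm]
    exact h.1
  · right
    have := key _ h
    rwa [hcomm] at this

include hm in
theorem backward {S : Set (ZMod (2 * m))} {K H : AddSubgroup (ZMod (2 * m))}
    (hK : ∃ q : ℕ, Odd q ∧ Nat.card K = 2 * q) (hH : 2 < Nat.card H)
    (hSK : ∀ s ∈ S, s ∉ oddPart K → ∀ x ∈ H, s + x ∈ S ∪ oddPart K) :
    ∃ σ : circulantGraph (shift (m : ZMod (2 * m)) S) ≃g
      circulantGraph (shift (m : ZMod (2 * m)) S), σ 0 = 0 ∧ σ (m : ZMod (2 * m)) ≠ m := by
  have : NeZero (2 * m) := ⟨by omega⟩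
  obtain ⟨q, hq, hKq⟩ := hK
  have hKz : ∀ k ∈ K, (2 * q) • k = 0 := by
    intro k hk
    have := card_nsmul_eq_zero' (G := K) (x := ⟨k, hk⟩)
    rw [hKq] at this
    exact congrArg Subtype.val this
  have hmK : (m : ZMod (2 * m)) ∈ K := by
    have : Fact (Nat.Prime 2) := ⟨Nat.prime_two⟩
    obtain ⟨k, hk⟩ := exists_prime_addOrderOf_dvd_card' (G := K) 2 ⟨q, hKq⟩
    have h1 : 2 • k = 0 := by
      have := addOrderOf_nsmul_eq_zero k
      rwa [hk] at this
    have h2 : k ≠ 0 := by
      rintro rfl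
      rw [addOrderOf_zero] at hk
      exact absurd hk (by norm_num)
    have h3 : (k : ZMod (2 * m)) + k = 0 := by
      have := congrArg Subtype.val h1
      rw [two_nsmul] at this
      exact this
    rcases z_uniq hm _ h3 with h | h
    · exact absurd (Subtype.ext h) h2
    · rw [← h]; exact k.2
  let L : AddSubgroup (ZMod (2 * m)) := K.map (nsmulAddMonoidHom 2)
  have hLmem : ∀ x, x ∈ L ↔ ∃ k ∈ K, x = 2 * k := by
    intro x
    simp only [L, AddSubgroup.mem_map, nsmulAddMonoidHom_apply, nsmul_eq_mul, Nat.cast_ofNat]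
    constructor
    · rintro ⟨k, hk, rfl⟩; exact ⟨k, hk, rfl⟩
    · rintro ⟨k, hk, rfl⟩; exact ⟨k, hk, rfl⟩
  have hLodd : ∀ l ∈ L, Odd (addOrderOf l) := by
    rintro l ⟨k, hk, rfl⟩
    apply odd_of_nsmul hq
    rw [nsmulAddMonoidHom_apply, smul_comm, ← mul_nsmul']
    exact hKz k hk
  have hqm : q • (m : ZMod (2 * m)) = m := odd_smul_m z_m2 hq
  -- square roots
  have hroot : ∀ s ∈ K, q • s = 0 → s ∈ L := by
    intro s hs hqs
    obtain ⟨j, hj⟩ := hq
    refine ⟨(j + 1) • s, K.nsmul_mem hs _, ?_⟩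
    rw [nsmulAddMonoidHom_apply, ← mul_nsmul', show 2 * (j + 1) = q + 1 by omega, add_nsmul,
      hqs, one_nsmul, zero_add]
  have hKo : ∀ s, s ∈ oddPart K → s + m ∈ L := by
    rintro s ⟨hs, hs2⟩
    have h1 : q • s + q • s = 0 := by
      rw [← two_nsmul, ← mul_nsmul']
      exact hKz s hs
    rcases z_uniq hm _ h1 with h | h
    · exact absurd ((hLmem s).1 (hroot s hs h)) hs2
    · apply hroot _ (K.add_mem hs hmK)
      rw [nsmul_add, h, hqm]
      exact z_m2
  have hT : ∀ t ∈ shift (m : ZMod (2 * m)) S, t ∉ L → ∀ x ∈ H,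
      t + x ∈ shift (m : ZMod (2 * m)) S ∨ t + x ∈ L := by
    intro t ht htL x hx
    rw [mem_shift] at ht
    have htt : ∀ z : ZMod (2 * m), z + m + m = z := by
      intro z; rw [add_assoc, z_m2, add_zero]
    have h1 : t + m ∉ oddPart K := by
      intro h
      apply htL
      have := hKo _ h
      rwa [htt] at this
    have h2 := hSK _ ht.1 h1 x hx
    have hcomm : t + m + x = t + x + m := by abel
    rw [hcomm] at h2
    rcases h2 with h | h
    · by_cases h0 : t + x = 0
      · right; rw [h0]; exact L.zero_mem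
      · left; rw [mem_shift]; exact ⟨h, h0⟩
    · right
      have := hKo _ h
      rwa [htt] at this
  obtain ⟨σ, hσ, hσ0, hσm⟩ := exists_aut (z_m0 hm) z_m2 (z_uniq hm) hLodd hH hT
  exact ⟨⟨σ, fun {x y} => adj_of hσ x y⟩, hσ0, hσm⟩

end zmod

end Pool.Agent.Lib_helper67.Circ
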