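import Mathlib

set_option autoImplicit false

/-!
Unsatisfiable hitting clause-sets (equivalently: partitions of the cube into subcubes).
The aim: a nonsingular unsatisfiable hitting clause-set of deficiency at most `k` has a number of
variables bounded by a function of `k`.
-/

namespace Pool.Agent.Lib_helper67.Hitting

/-- literals -/
abbrev Lit := ℕ × Bool
/-- clauses -/
abbrev Cl := Finset Lit

/-- complement of a literal -/
def neg (l : Lit) : Lit := (l.1, !l.2)

@[simp] lemma neg_fst (l : Lit) : (neg l).1 = l.1 := rfl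
@[simp] lemma neg_snd (l : Lit) : (neg l).2 = !l.2 := rfl
@[simp] lemma neg_neg' (l : Lit) : neg (neg l) = l := by
  ext <;> simp
lemma neg_ne (l : Lit) : neg l ≠ l := by
  intro h
  have := congrArg Prod.snd h
  simp at this

lemma eq_or_eq_neg {l m : Lit} (h : l.1 = m.1) : l = m ∨ l = neg m := by
  by_cases h2 : l.2 = m.2
  · left; exact Prod.ext h h2
  · right
    refine Prod.ext h ?_
    simp only [neg_snd]
    cases hl : l.2 <;> cases hm : m.2 <;> simp_all

/-- non-tautological clause -/
def NT (C : Cl) : Prop := ∀ l ∈ C, neg l ∉ C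

/-- the assignment `σ` falsifies every literal of `C` -/
def Fals (σ : ℕ → Bool) (C : Cl) : Prop := ∀ l ∈ C, σ l.1 ≠ l.2

/-- the set of variables -/
def vars (F : Finset Cl) : Finset ℕ := F.biUnion (fun C => C.image Prod.fst)

lemma mem_vars {F : Finset Cl} {v : ℕ} : v ∈ vars F ↔ ∃ C ∈ F, ∃ l ∈ C, l.1 = v := by
  simp [vars]

/-- unsatisfiable hitting clause-sets -/
structure UHit (F : Finset Cl) : Prop where
  nt : ∀ C ∈ F, NT C
  hit : ∀ C ∈ F, ∀ D ∈ F, C ≠ D → ∃ l ∈ C, neg l ∈ D
  uns : ∀ σ : ℕ → Bool, ∃ C ∈ F, Fals σ C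

/-- change `σ` on the variables of `C` so that `C` is falsified -/
def modify (σ : ℕ → Bool) (C : Cl) : ℕ → Bool :=
  fun v => if (v, true) ∈ C then false else if (v, false) ∈ C then true else σ v

lemma modify_fals {σ : ℕ → Bool} {C : Cl} (h : NT C) : Fals (modify σ C) C := by
  rintro ⟨v, b⟩ hl
  have h2 := h _ hl
  simp only [neg] at h2
  cases b
  · simp only [Bool.not_false] at h2
    simp [modify, h2, hl]
  · simp [modify, hl]

lemma modify_eq {σ : ℕ → Bool} {C : Cl} {v : ℕ} (h1 : (v, true) ∉ C) (h2 : (v, false) ∉ C) :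
    modify σ C v = σ v := by
  simp [modify, h1, h2]

lemma modify_eq' {σ : ℕ → Bool} {C : Cl} {l : Lit} (h1 : l ∉ C) (h2 : neg l ∉ C) :
    modify σ C l.1 = σ l.1 := by
  obtain ⟨v, b⟩ := l
  cases b
  · exact modify_eq (by simpa [neg] using h2) h1
  · exact modify_eq h1 (by simpa [neg] using h2)

lemma fals_mono {σ : ℕ → Bool} {C D : Cl} (h : C ⊆ D) (hD : Fals σ D) : Fals σ C :=
  fun l hl => hD l (h hl)

lemma UHit.uniq {F : Finset Cl} (hF : UHit F) {C D : Cl} (hC : C ∈ F) (hD : D ∈ F)
    {σ : ℕ → Bool} (h1 : Fals σ C) (h2 : Fals σ D) : C = D := by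
  by_contra hne
  obtain ⟨l, hl, hl'⟩ := hF.hit C hC D hD hne
  have a := h1 l hl
  have b := h2 _ hl'
  simp only [neg_fst, neg_snd] at b
  cases h : σ l.1 <;> cases h' : l.2 <;> simp_all

/-- restriction of a clause-set to the subcube where `K` is falsified -/
def res (F : Finset Cl) (K : Cl) : Finset Cl :=
  (F.filter (fun D => ∀ l ∈ D, neg l ∉ K)).image (fun D => D \ K)

lemma mem_res {F : Finset Cl} {K E : Cl} :
    E ∈ res F K ↔ ∃ D ∈ F, (∀ l ∈ D, neg l ∉ K) ∧ D \ K = E := by
  simp [res, and_assoc]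

lemma res_uhit {F : Finset Cl} (hF : UHit F) {K : Cl} (hK : NT K) : UHit (res F K) := by
  refine ⟨?_, ?_, ?_⟩
  · intro C hC
    obtain ⟨D, hD, -, rfl⟩ := mem_res.1 hC
    intro l hl hl'
    exact hF.nt D hD l (Finset.mem_sdiff.1 hl).1 (Finset.mem_sdiff.1 hl').1
  · intro C hC C' hC' hne
    obtain ⟨D, hD, hDK, rfl⟩ := mem_res.1 hC
    obtain ⟨D', hD', hDK', rfl⟩ := mem_res.1 hC'
    have hDD : D ≠ D' := by
      rintro rfl; exact hne rfl
    obtain ⟨l, hl, hl'⟩ := hF.hit D hD D' hD' hDD
    refine ⟨l, Finset.mem_sdiff.2 ⟨hl, ?_⟩, Finset.mem_sdiff.2 ⟨hl', hDK l hl⟩⟩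
    have := hDK' _ hl'
    simpa using this
  · intro σ
    obtain ⟨D, hD, hfD⟩ := hF.uns (modify σ K)
    have hmK := modify_fals (σ := σ) hK
    have hcl : ∀ l ∈ D, neg l ∉ K := by
      intro l hl hlK
      have a := hfD l hl
      have b := hmK _ hlK
      simp only [neg_fst, neg_snd] at b
      cases h : modify σ K l.1 <;> cases h' : l.2 <;> simp_all
    refine ⟨D \ K, mem_res.2 ⟨D, hD, hcl, rfl⟩, ?_⟩
    intro l hl
    obtain ⟨hlD, hlK⟩ := Finset.mem_sdiff.1 hl
    have := hfD l hlD
    rwa [modify_eq' hlK (hcl l hlD)] at this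

lemma sdiff_inj {F : Finset Cl} (hF : UHit F) {K : Cl} {D D' : Cl} (hD : D ∈ F) (hD' : D' ∈ F)
    (hDK : ∀ l ∈ D, neg l ∉ K) (h : D \ K = D' \ K) : D = D' := by
  by_contra hne
  obtain ⟨l, hl, hl'⟩ := hF.hit D hD D' hD' hne
  have h1 : neg l ∈ D' \ K := Finset.mem_sdiff.2 ⟨hl', hDK l hl⟩
  rw [← h] at h1
  exact hF.nt D hD l hl (Finset.mem_sdiff.1 h1).1

lemma card_res {F : Finset Cl} (hF : UHit F) (K : Cl) :
    (res F K).card = (F.filter (fun D => ∀ l ∈ D, neg l ∉ K)).card := by
  apply Finset.card_image_of_injOn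
  intro D hD D' hD' h
  rw [Finset.mem_coe, Finset.mem_filter] at hD hD'
  exact sdiff_inj hF hD.1 hD'.1 hD.2 h

/-- Tarsi's lemma for unsatisfiable hitting clause-sets. -/
theorem tarsi {F : Finset Cl} (hF : UHit F) : (vars F).card + 1 ≤ F.card := by
  classical
  by_contra hcon
  push Not at hcon
  have hle : F.card ≤ (vars F).card := by omega
  -- potential
  let f : Finset Cl → ℤ := fun S => (S.card : ℤ) - ((vars S).card : ℤ)
  have hFne : F.Nonempty := by
    obtain ⟨C, hC, -⟩ := hF.uns (fun _ => true)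
    exact ⟨C, hC⟩
  -- choose a proper subset maximizing f
  obtain ⟨S, hSF, hSne, hSmax⟩ : ∃ S, S ⊆ F ∧ S ≠ F ∧ ∀ S' ⊆ F, f S' ≤ f S := by
    obtain ⟨S, hS, hmax⟩ := Finset.exists_max_image F.powerset f ⟨∅, by simp⟩
    rw [Finset.mem_powerset] at hS
    by_cases hSF : S = F
    · refine ⟨∅, by simp, hFne.ne_empty.symm, ?_⟩
      intro S' hS'
      have h1 := hmax S' (by simpa using hS')
      have h2 : f S ≤ 0 := by
        subst hSF
        simp only [f]
        omega
      have h3 : f ∅ = 0 := by simp [f, vars]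
      linarith
    · exact ⟨S, hS, hSF, fun S' hS' => hmax S' (by simpa using hS')⟩
  obtain ⟨G, hGF, hGS⟩ : ∃ G ∈ F, G ∉ S := by
    by_contra h
    push Not at h
    exact hSne (Finset.Subset.antisymm hSF h)
  -- Hall
  let ι := {C : Cl // C ∈ F \ S}
  let t : ι → Finset ℕ := fun C => (C.1.image Prod.fst) \ vars S
  have hall : ∀ s : Finset ι, s.card ≤ (s.biUnion t).card := by
    intro s
    let H : Finset Cl := s.image Subtype.val
    have hHcard : H.card = s.card := Finset.card_image_of_injective _ Subtype.val_injective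
    have hHF : H ⊆ F \ S := by
      intro C hC
      obtain ⟨c, -, rfl⟩ := Finset.mem_image.1 hC
      exact c.2
    have hdisj : Disjoint S H := by
      rw [Finset.disjoint_left]
      intro C hCS hCH
      exact (Finset.mem_sdiff.1 (hHF hCH)).2 hCS
    have hsub : S ∪ H ⊆ F := by
      apply Finset.union_subset hSF
      intro C hC
      exact (Finset.mem_sdiff.1 (hHF hC)).1
    have h1 := hSmax (S ∪ H) hsub
    have hvars : vars (S ∪ H) = vars S ∪ s.biUnion t := by
      ext v
      simp only [mem_vars, Finset.mem_union, Finset.mem_biUnion]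
      constructor
      · rintro ⟨C, hC | hC, l, hl, rfl⟩
        · left; exact ⟨C, hC, l, hl, rfl⟩
        · by_cases hv : l.1 ∈ vars S
          · left; exact mem_vars.1 hv
          · right
            obtain ⟨c, hc, rfl⟩ := Finset.mem_image.1 hC
            refine ⟨c, hc, ?_⟩
            simp only [t, Finset.mem_sdiff, Finset.mem_image]
            exact ⟨⟨l, hl, rfl⟩, hv⟩
      · rintro (⟨C, hC, l, hl, rfl⟩ | ⟨c, hc, hv⟩)
        · exact ⟨C, Or.inl hC, l, hl, rfl⟩
        · simp only [t, Finset.mem_sdiff, Finset.mem_image] at hv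
          obtain ⟨⟨l, hl, rfl⟩, -⟩ := hv
          exact ⟨c.1, Or.inr (Finset.mem_image.2 ⟨c, hc, rfl⟩), l, hl, rfl⟩
    have hdv : Disjoint (vars S) (s.biUnion t) := by
      rw [Finset.disjoint_left]
      intro v hv hv'
      obtain ⟨c, -, hc⟩ := Finset.mem_biUnion.1 hv'
      exact (Finset.mem_sdiff.1 hc).2 hv
    simp only [f] at h1
    rw [hvars, Finset.card_union_of_disjoint hdisj, Finset.card_union_of_disjoint hdv] at h1
    push_cast at h1
    rw [← hHcard]
    omega
  obtain ⟨g, hginj, hg⟩ := (Finset.all_card_le_biUnion_card_iff_exists_injective t).1 hall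
  -- assignment falsifying G, hence satisfying S
  let σ₀ : ℕ → Bool := modify (fun _ => true) G
  have hσ₀ : Fals σ₀ G := modify_fals (hF.nt G hGF)
  have hlit : ∀ c : ι, ∃ l ∈ c.1, l.1 = g c ∧ g c ∉ vars S := by
    intro c
    have := hg c
    simp only [t, Finset.mem_sdiff, Finset.mem_image] at this
    obtain ⟨⟨l, hl, h⟩, h'⟩ := this
    exact ⟨l, hl, h, h'⟩
  choose lit hlit1 hlit2 hlit3 using hlit
  let σ : ℕ → Bool := fun u => if h : ∃ c : ι, g c = u then (lit h.choose).2 else σ₀ u
  have hσg : ∀ c : ι, σ (g c) = (lit c).2 := by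
    intro c
    have h : ∃ c' : ι, g c' = g c := ⟨c, rfl⟩
    have h2 : h.choose = c := hginj h.choose_spec
    simp only [σ]
    rw [dif_pos h, h2]
  obtain ⟨C, hC, hCf⟩ := hF.uns σ
  by_cases hCS : C ∈ S
  · -- then σ₀ falsifies C
    have hσ₀C : Fals σ₀ C := by
      intro l hl
      have h1 := hCf l hl
      have h2 : ¬ ∃ c : ι, g c = l.1 := by
        rintro ⟨c, hc⟩
        apply hlit3 c
        rw [hc]
        exact mem_vars.2 ⟨C, hCS, l, hl, rfl⟩
      simp only [σ] at h1
      rwa [dif_neg h2] at h1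
    have := hF.uniq hC hGF hσ₀C hσ₀
    exact hGS (this ▸ hCS)
  · let c : ι := ⟨C, Finset.mem_sdiff.2 ⟨hC, hCS⟩⟩
    have h1 := hCf (lit c) (hlit1 c)
    rw [hlit2 c, hσg c] at h1
    exact h1 rfl


/-- main structural fact on a literal `x` occurring exactly once: every clause containing the
complement of `x` contains the rest of the main clause. -/
lemma sing {F : Finset Cl} (hF : UHit F) {x : Lit} {L : Cl} (hL : L ∈ F) (hxL : x ∈ L)
    (hx : ∀ D ∈ F, x ∈ D → D = L) {G : Cl} (hG : G ∈ F) (hxG : neg x ∈ G)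
    {l : Lit} (hl : l ∈ L) (hlx : l ≠ x) : l ∈ G := by
  by_contra hlG
  have hl1 : l.1 ≠ x.1 := by
    intro h
    rcases eq_or_eq_neg h with h | h
    · exact hlx h
    · exact hF.nt L hL x hxL (h ▸ hl)
  let τ : ℕ → Bool := modify (fun _ => l.2) G
  have hτ : Fals τ G := modify_fals (hF.nt G hG)
  have hτl : τ l.1 = l.2 := by
    by_cases h : neg l ∈ G
    · have := hτ _ h
      simp only [neg_fst, neg_snd] at this
      cases h1 : τ l.1 <;> cases h2 : l.2 <;> simp_all
    · exact modify_eq' hlG h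
  have hτx : τ x.1 = x.2 := by
    have := hτ _ hxG
    simp only [neg_fst, neg_snd] at this
    cases h1 : τ x.1 <;> cases h2 : x.2 <;> simp_all
  let τ' : ℕ → Bool := Function.update τ x.1 (!x.2)
  obtain ⟨H, hH, hHf⟩ := hF.uns τ'
  by_cases hxH : x ∈ H
  · have := hx H hH hxH
    subst this
    have h1 := hHf l hl
    simp only [τ'] at h1
    rw [Function.update_of_ne hl1] at h1
    exact h1 hτl
  · have hne : ∀ h ∈ H, h.1 ≠ x.1 := by
      intro h hh hh1
      rcases eq_or_eq_neg hh1 with h2 | h2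
      · exact hxH (h2 ▸ hh)
      · have h3 := hHf h hh
        rw [h2] at h3
        simp [τ'] at h3
    have hHτ : Fals τ H := by
      intro h hh
      have h1 := hHf h hh
      simp only [τ'] at h1
      rwa [Function.update_of_ne (hne h hh)] at h1
    have := hF.uniq hH hG hHτ hτ
    subst this
    exact hne _ hxG rfl

/-- both signs of a variable occur -/
lemma occ_both {F : Finset Cl} (hF : UHit F) {C : Cl} (hC : C ∈ F) {x : Lit} (hx : x ∈ C) :
    ∃ D ∈ F, neg x ∈ D := by
  let τ : ℕ → Bool := modify (fun _ => true) C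
  have hτ : Fals τ C := modify_fals (hF.nt C hC)
  let τ' : ℕ → Bool := Function.update τ x.1 x.2
  obtain ⟨D, hD, hDf⟩ := hF.uns τ'
  refine ⟨D, hD, ?_⟩
  by_contra hnx
  have hxD : x ∉ D := by
    intro h
    have := hDf x h
    simp [τ'] at this
  have hne : ∀ h ∈ D, h.1 ≠ x.1 := by
    intro h hh hh1
    rcases eq_or_eq_neg hh1 with h2 | h2
    · exact hxD (h2 ▸ hh)
    · exact hnx (h2 ▸ hh)
  have hDτ : Fals τ D := by
    intro h hh
    have h1 := hDf h hh
    simp only [τ'] at h1
    rwa [Function.update_of_ne (hne h hh)] at h1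
  have := hF.uniq hC hD hτ hDτ
  subst this
  exact hxD hx

/-- number of occurrences of a literal -/
def ld (F : Finset Cl) (x : Lit) : ℕ := (F.filter (fun D => x ∈ D)).card

/-- the literals that occur exactly once -/
def once (F : Finset Cl) : Finset Lit :=
  ((vars F) ×ˢ Finset.univ).filter (fun y => ld F y = 1)

lemma mem_once {F : Finset Cl} {y : Lit} : y ∈ once F ↔ ld F y = 1 := by
  simp only [once, Finset.mem_filter, Finset.mem_product, Finset.mem_univ, and_true]
  refine ⟨fun h => h.2, fun h => ⟨?_, h⟩⟩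
  have : (F.filter (fun D => y ∈ D)).Nonempty := by
    rw [← Finset.card_pos]
    unfold ld at h
    omega
  obtain ⟨D, hD⟩ := this
  rw [Finset.mem_filter] at hD
  exact mem_vars.2 ⟨D, hD.1, y, hD.2, rfl⟩

lemma once_main {F : Finset Cl} {y : Lit} (h : y ∈ once F) :
    ∃ L ∈ F, y ∈ L ∧ ∀ D ∈ F, y ∈ D → D = L := by
  rw [mem_once] at h
  obtain ⟨L, hL⟩ := Finset.card_eq_one.1 h
  have hLm : L ∈ F.filter (fun D => y ∈ D) := by rw [hL]; simp
  rw [Finset.mem_filter] at hLm
  refine ⟨L, hLm.1, hLm.2, ?_⟩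
  intro D hD hyD
  have : D ∈ F.filter (fun D => y ∈ D) := Finset.mem_filter.2 ⟨hD, hyD⟩
  rw [hL] at this
  simpa using this

lemma mem_once_of {F : Finset Cl} {y : Lit} {L : Cl} (hL : L ∈ F) (hy : y ∈ L)
    (h : ∀ D ∈ F, y ∈ D → D = L) : y ∈ once F := by
  rw [mem_once]
  apply Finset.card_eq_one.2
  refine ⟨L, ?_⟩
  ext D
  simp only [Finset.mem_filter, Finset.mem_singleton]
  constructor
  · rintro ⟨h1, h2⟩; exact h D h1 h2
  · rintro rfl; exact ⟨hL, hy⟩

/-- a clause contains at most one literal occurring exactly once -/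
lemma once_inj {F : Finset Cl} (hF : UHit F) {x y : Lit} (hx : x ∈ once F) (hy : y ∈ once F)
    {L : Cl} (hL : L ∈ F) (hxL : x ∈ L) (hyL : y ∈ L) : x = y := by
  by_contra hne
  obtain ⟨Lx, hLx, hxLx, hmx⟩ := once_main hx
  obtain ⟨Ly, hLy, hyLy, hmy⟩ := once_main hy
  obtain rfl := hmx L hL hxL
  obtain ⟨G, hG, hxG⟩ := occ_both hF hL hxL
  have hyG : y ∈ G := sing hF hL hxL hmx hG hxG hyL (Ne.symm hne)
  have h1 := hmy G hG hyG
  have h2 := hmy L hL hyL
  rw [← h2] at h1
  subst h1
  exact hF.nt _ hG x hxL hxG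

/-- clauses of the restriction to a one-literal clause -/
lemma filter_single {x : Lit} {D : Cl} : (∀ l ∈ D, neg l ∉ ({x} : Cl)) ↔ neg x ∉ D := by
  constructor
  · intro h hx
    exact h _ hx (by simp)
  · intro h l hl hl'
    rw [Finset.mem_singleton] at hl'
    apply h
    rw [← hl']
    simpa using hl

lemma mem_res_single {F : Finset Cl} {x : Lit} {E : Cl} :
    E ∈ res F {x} ↔ ∃ D ∈ F, neg x ∉ D ∧ D.erase x = E := by
  rw [mem_res]
  simp only [filter_single, Finset.sdiff_singleton_eq_erase]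

lemma nt_single (x : Lit) : NT {x} := by
  intro l hl hl'
  rw [Finset.mem_singleton] at hl hl'
  subst hl
  exact neg_ne l hl'

lemma card_res_single {F : Finset Cl} (hF : UHit F) (x : Lit) :
    (res F {x}).card + ld F (neg x) = F.card := by
  rw [card_res hF]
  simp only [filter_single]
  unfold ld
  rw [add_comm]
  exact Finset.card_filter_add_card_filter_not (s := F) (fun D => neg x ∈ D)

lemma once_res_main {F : Finset Cl} (hF : UHit F) {x y : Lit} (hy : y ∈ once (res F {x})) :
    ∃ L ∈ F, neg x ∉ L ∧ y ∈ L ∧ y.1 ≠ x.1 ∧ ∀ D ∈ F, neg x ∉ D → y ∈ D → D = L := by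
  obtain ⟨E, hE, hyE, hmE⟩ := once_main hy
  obtain ⟨L, hL, hxL, rfl⟩ := mem_res_single.1 hE
  have hyL := Finset.mem_of_mem_erase hyE
  have hyx : y ≠ x := Finset.ne_of_mem_erase hyE
  have hy1 : y.1 ≠ x.1 := by
    intro h
    rcases eq_or_eq_neg h with h | h
    · exact hyx h
    · exact hxL (h ▸ hyL)
  refine ⟨L, hL, hxL, hyL, hy1, ?_⟩
  intro D hD hxD hyD
  have h1 : D.erase x ∈ res F {x} := mem_res_single.2 ⟨D, hD, hxD, rfl⟩
  have h2 := hmE _ h1 (Finset.mem_erase.2 ⟨hyx, hyD⟩)
  apply sdiff_inj hF (K := {x}) hD hL (filter_single.2 hxD)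
  simpa [Finset.sdiff_singleton_eq_erase] using h2

lemma vars_res_subset {F : Finset Cl} {K : Cl} : vars (res F K) ⊆ vars F := by
  intro v hv
  obtain ⟨E, hE, l, hl, rfl⟩ := mem_vars.1 hv
  obtain ⟨D, hD, -, rfl⟩ := mem_res.1 hE
  exact mem_vars.2 ⟨D, hD, l, (Finset.mem_sdiff.1 hl).1, rfl⟩

lemma not_mem_vars_res {F : Finset Cl} {x : Lit} : x.1 ∉ vars (res F {x}) := by
  intro hv
  obtain ⟨E, hE, l, hl, hl1⟩ := mem_vars.1 hv
  obtain ⟨D, hD, hxD, rfl⟩ := mem_res_single.1 hE
  rcases eq_or_eq_neg hl1 with h | h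
  · exact Finset.ne_of_mem_erase hl h
  · exact hxD (h ▸ Finset.mem_of_mem_erase hl)

/-- the restriction to `{x}` keeps all other variables, provided each other variable occurs
in a clause without `neg x`. -/
lemma card_vars_res {F : Finset Cl} {x : Lit} (hxv : x.1 ∈ vars F)
    (h : ∀ w ∈ vars F, w ≠ x.1 → ∃ D ∈ F, neg x ∉ D ∧ ∃ l ∈ D, l.1 = w) :
    (vars (res F {x})).card + 1 = (vars F).card := by
  have : vars (res F {x}) = (vars F).erase x.1 := by
    ext w
    rw [Finset.mem_erase]
    constructor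
    · intro hw
      refine ⟨?_, vars_res_subset hw⟩
      rintro rfl
      exact not_mem_vars_res hw
    · rintro ⟨hne, hw⟩
      obtain ⟨D, hD, hxD, l, hl, rfl⟩ := h w hw hne
      refine mem_vars.2 ⟨D.erase x, mem_res_single.2 ⟨D, hD, hxD, rfl⟩, l, ?_, rfl⟩
      refine Finset.mem_erase.2 ⟨?_, hl⟩
      rintro rfl
      exact hne rfl
  rw [this]
  exact Finset.card_erase_add_one hxv

/-- singular reduction: satisfy a literal `x` occurring exactly once. -/
lemma reduce {F : Finset Cl} (hF : UHit F) {x : Lit} (hx : x ∈ once F) :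
    (vars (res F {neg x})).card + 1 = (vars F).card ∧
    (res F {neg x}).card + 1 = F.card ∧
    (once (res F {neg x})).card + 1 ≤ (once F).card := by
  classical
  obtain ⟨L, hL, hxL, hmx⟩ := once_main hx
  refine ⟨?_, ?_, ?_⟩
  · apply card_vars_res
    · exact mem_vars.2 ⟨L, hL, x, hxL, rfl⟩
    · intro w hw hne
      obtain ⟨D, hD, l, hl, rfl⟩ := mem_vars.1 hw
      simp only [neg_fst] at hne
      simp only [neg_neg']
      by_cases hxD : x ∈ D
      · obtain rfl := hmx D hD hxD
        obtain ⟨G, hG, hxG⟩ := occ_both hF hL hxL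
        refine ⟨G, hG, ?_, l, sing hF hL hxL hmx hG hxG hl ?_, rfl⟩
        · intro hxG'
          exact hF.nt G hG x hxG' hxG
        · rintro rfl
          exact hne rfl
      · exact ⟨D, hD, hxD, l, hl, rfl⟩
  · have := card_res_single hF (neg x)
    rw [neg_neg', mem_once.1 hx] at this
    exact this
  · -- injection into (once F).erase x
    have hcard : (once (res F {neg x})).card ≤ ((once F).erase x).card := by
      apply Finset.card_le_card_of_injOn (fun y => if y ∈ L then neg x else y)
      · intro y hy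
        obtain ⟨L', hL', hxL', hyL', hy1, hm'⟩ := once_res_main hF hy
        simp only [neg_neg', neg_fst] at hxL' hy1 hm'
        simp only [Finset.coe_erase]
        by_cases hyL : y ∈ L
        · simp only [hyL, if_true]
          have hyx : y ≠ x := by
            rintro rfl; exact hy1 rfl
          -- the only clause with neg x is L'
          have key : ∀ G ∈ F, neg x ∈ G → G = L' := by
            intro G hG hxG
            apply hm' G hG
            · intro hxG'
              exact hF.nt G hG x hxG' hxG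
            · exact sing hF hL hxL hmx hG hxG hyL hyx
          obtain ⟨G, hG, hxG⟩ := occ_both hF hL hxL
          have hGL := key G hG hxG
          subst hGL
          exact ⟨mem_once_of hG hxG key, neg_ne x⟩
        · simp only [hyL, if_false]
          refine ⟨mem_once_of hL' hyL' ?_, ?_⟩
          · intro D hD hyD
            apply hm' D hD _ hyD
            intro hxD
            exact hyL (hmx D hD hxD ▸ hyD)
          · rintro rfl
            exact hy1 rfl
      · intro y hy y' hy' h
        obtain ⟨L₁, hL₁, hxL₁, hyL₁, hy1, hm₁⟩ := once_res_main hF hy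
        obtain ⟨L₂, hL₂, hxL₂, hyL₂, hy2, hm₂⟩ := once_res_main hF hy'
        simp only [neg_neg', neg_fst] at hxL₁ hxL₂ hy1 hy2 hm₁ hm₂
        by_cases hyL : y ∈ L <;> by_cases hyL' : y' ∈ L
        · -- both in L: they lie in a common clause of the restriction
          obtain ⟨G, hG, hxG⟩ := occ_both hF hL hxL
          have hxG' : x ∉ G := fun hxG' => hF.nt G hG x hxG' hxG
          have hyx : y ≠ x := by rintro rfl; exact hy1 rfl
          have hyx' : y' ≠ x := by rintro rfl; exact hy2 rfl
          have a := sing hF hL hxL hmx hG hxG hyL hyx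
          have b := sing hF hL hxL hmx hG hxG hyL' hyx'
          have hGm : G.erase (neg x) ∈ res F {neg x} :=
            mem_res_single.2 ⟨G, hG, by simpa using hxG', rfl⟩
          apply once_inj (res_uhit hF (nt_single _)) hy hy' hGm
          · refine Finset.mem_erase.2 ⟨?_, a⟩
            rintro rfl; exact hy1 rfl
          · refine Finset.mem_erase.2 ⟨?_, b⟩
            rintro rfl; exact hy2 rfl
        · simp only [hyL, hyL', if_true, if_false] at h
          exact absurd (by rw [← h]; rfl) hy2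
        · simp only [hyL, hyL', if_true, if_false] at h
          exact absurd (by rw [h]; rfl) hy1
        · simpa only [hyL, hyL', if_false] using h
    have h2 := Finset.card_erase_add_one hx
    omega

/-- iterated singular reduction -/
lemma bound_by_once (k N : ℕ)
    (hN : ∀ F : Finset Cl, UHit F → once F = ∅ → F.card ≤ (vars F).card + k → (vars F).card ≤ N) :
    ∀ n : ℕ, ∀ F : Finset Cl, F.card = n → UHit F → F.card ≤ (vars F).card + k →
      (vars F).card ≤ N + (once F).card := by
  intro n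
  induction n with
  | zero =>
    intro F hn hF _
    have := tarsi hF
    omega
  | succ n ih =>
    intro F hn hF hd
    by_cases ho : once F = ∅
    · have := hN F hF ho hd
      omega
    · obtain ⟨x, hx⟩ := Finset.nonempty_iff_ne_empty.2 ho
      obtain ⟨h1, h2, h3⟩ := reduce hF hx
      have := ih (res F {neg x}) (by omega) (res_uhit hF (nt_single _)) (by omega)
      omega


lemma ld_ge_two {F : Finset Cl} (hF : UHit F) (ho : once F = ∅) {x : Lit}
    (hx : x.1 ∈ vars F) : 2 ≤ ld F x := by
  have h1 : ld F x ≠ 1 := by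
    intro h
    have := mem_once.2 h
    rw [ho] at this
    simp at this
  have h2 : 0 < ld F x := by
    unfold ld
    rw [Finset.card_pos]
    obtain ⟨C, hC, l, hl, hlx⟩ := mem_vars.1 hx
    rcases eq_or_eq_neg hlx with h | h
    · exact ⟨C, Finset.mem_filter.2 ⟨hC, h ▸ hl⟩⟩
    · obtain ⟨D, hD, hD2⟩ := occ_both hF hC hl
      rw [h, neg_neg'] at hD2
      exact ⟨D, Finset.mem_filter.2 ⟨hD, hD2⟩⟩
  omega

/-- the degree of a variable -/
def deg (F : Finset Cl) (w : ℕ) : ℕ := ld F (w, true) + ld F (w, false)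

lemma deg_eq {F : Finset Cl} (x : Lit) : deg F x.1 = ld F x + ld F (neg x) := by
  obtain ⟨v, b⟩ := x
  cases b
  · simp [deg, neg, add_comm]
  · simp [deg, neg]

/-- if `x.1` is a variable of minimal degree and both literals occur, then every other
variable occurs in a clause not containing `neg x`. -/
lemma keep {F : Finset Cl} {x : Lit} (hx : 0 < ld F x)
    (hmin : ∀ w ∈ vars F, deg F x.1 ≤ deg F w) (hnt : ∀ C ∈ F, NT C) :
    ∀ w ∈ vars F, w ≠ x.1 → ∃ D ∈ F, neg x ∉ D ∧ ∃ l ∈ D, l.1 = w := by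
  intro w hw _
  by_contra hcon
  push Not at hcon
  have h1 := hmin w hw
  rw [deg_eq] at h1
  have h2 : deg F w ≤ ld F (neg x) := by
    unfold deg ld
    rw [← Finset.card_union_of_disjoint]
    · apply Finset.card_le_card
      intro D hD
      rw [Finset.mem_union, Finset.mem_filter, Finset.mem_filter] at hD
      rw [Finset.mem_filter]
      rcases hD with ⟨hD, h⟩ | ⟨hD, h⟩
      · refine ⟨hD, ?_⟩
        by_contra hn
        exact hcon D hD hn _ h rfl
      · refine ⟨hD, ?_⟩
        by_contra hn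
        exact hcon D hD hn _ h rfl
    · rw [Finset.disjoint_left]
      intro D hD hD'
      rw [Finset.mem_filter] at hD hD'
      exact hnt D hD.1 _ hD.2 hD'.2
  omega

/-- Tarsi's lemma in a restriction: bound on a literal degree. -/
lemma ld_le {F : Finset Cl} (hF : UHit F) {x : Lit} (hx : 0 < ld F x) (hxv : x.1 ∈ vars F)
    (hmin : ∀ w ∈ vars F, deg F x.1 ≤ deg F w) {k : ℕ} (hd : F.card ≤ (vars F).card + k) :
    ld F (neg x) ≤ k := by
  have h1 := card_vars_res hxv (keep hx hmin hF.nt)
  have h2 := card_res_single hF x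
  have h3 := tarsi (res_uhit hF (nt_single x))
  omega

/-- the clause obtained from `C` by flipping the literal `x` -/
def flipc (x : Lit) (C : Cl) : Cl := insert (neg x) (C.erase x)

lemma flipc_nt {F : Finset Cl} (hF : UHit F) {x : Lit} {C : Cl} (hC : C ∈ F) (hx : x ∈ C) :
    NT (flipc x C) := by
  intro l hl hl'
  unfold flipc at hl hl'
  rw [Finset.mem_insert, Finset.mem_erase] at hl hl'
  rcases hl with rfl | ⟨h1, h2⟩
  · rcases hl' with h | ⟨h, -⟩
    · exact neg_ne _ h
    · exact h (neg_neg' x)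
  · rcases hl' with h | ⟨h, h'⟩
    · exact h1 (by rw [← neg_neg' l, h, neg_neg'])
    · exact hF.nt C hC l h2 h'

/-- if `D ∈ F` does not clash with the flipped clause, then `neg x ∈ D` -/
lemma filter_flipc {F : Finset Cl} (hF : UHit F) {x : Lit} {C : Cl} (hC : C ∈ F) (hx : x ∈ C)
    {D : Cl} (hD : D ∈ F) (h : ∀ l ∈ D, neg l ∉ flipc x C) : neg x ∈ D := by
  by_contra hnx
  have hxD : x ∉ D := by
    intro hxD
    exact h x hxD (by unfold flipc; simp)
  have hne : C ≠ D := by
    rintro rfl
    exact hxD hx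
  obtain ⟨l, hl, hl'⟩ := hF.hit D hD C hC (Ne.symm hne)
  apply h l hl
  unfold flipc
  refine Finset.mem_insert_of_mem (Finset.mem_erase.2 ⟨?_, hl'⟩)
  intro h1
  apply hnx
  rw [← h1, neg_neg']
  exact hl

lemma card_res_flipc {F : Finset Cl} (hF : UHit F) {x : Lit} {C : Cl} (hC : C ∈ F) (hx : x ∈ C) :
    (res F (flipc x C)).card ≤ ld F (neg x) := by
  rw [card_res hF]
  apply Finset.card_le_card
  intro D hD
  rw [Finset.mem_filter] at hD ⊢
  exact ⟨hD.1, filter_flipc hF hC hx hD.1 hD.2⟩

/-- the key step: the variables which occur once in the restriction -/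
lemma once_res_cover {F : Finset Cl} (hF : UHit F) (ho : once F = ∅) {x y : Lit}
    (hy : y ∈ once (res F {x})) :
    (∃ L ∈ F, x ∈ L ∧ y ∈ L.erase x) ∨
    (∃ C ∈ F, x ∈ C ∧ y.1 ∈ vars (res F (flipc x C))) := by
  obtain ⟨L, hL, hxL, hyL, hy1, hm⟩ := once_res_main hF hy
  by_cases hxL' : x ∈ L
  · left
    refine ⟨L, hL, hxL', Finset.mem_erase.2 ⟨?_, hyL⟩⟩
    rintro rfl; exact hy1 rfl
  · right
    have hyx : y ≠ x := by rintro rfl; exact hy1 rfl
    have hyx' : y ≠ neg x := by rintro rfl; exact hy1 rfl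
    -- a further clause with y, which then contains neg x
    have h2 : 2 ≤ ld F y := ld_ge_two hF ho (mem_vars.2 ⟨L, hL, y, hyL, rfl⟩)
    obtain ⟨D, hD, hyD, hxD⟩ : ∃ D ∈ F, y ∈ D ∧ neg x ∈ D := by
      by_contra hcon
      push Not at hcon
      have : ld F y ≤ 1 := by
        unfold ld
        rw [Finset.card_le_one]
        intro a ha b hb
        rw [Finset.mem_filter] at ha hb
        rw [hm a ha.1 (hcon a ha.1 ha.2) ha.2, hm b hb.1 (hcon b hb.1 hb.2) hb.2]
      omega
    let τ : ℕ → Bool := modify (fun _ => true) D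
    have hτ : Fals τ D := modify_fals (hF.nt D hD)
    have hτx : τ x.1 = x.2 := by
      have := hτ _ hxD
      simp only [neg_fst, neg_snd] at this
      cases h1 : τ x.1 <;> cases h2 : x.2 <;> simp_all
    let τ₀ : ℕ → Bool := Function.update τ x.1 (!x.2)
    obtain ⟨C, hC, hCf⟩ := hF.uns τ₀
    have hnxC : neg x ∉ C := by
      intro h
      have := hCf _ h
      simp [τ₀] at this
    have hxC : x ∈ C := by
      by_contra hxC
      have hne : ∀ h ∈ C, h.1 ≠ x.1 := by
        intro h hh hh1
        rcases eq_or_eq_neg hh1 with h2 | h2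
        · exact hxC (h2 ▸ hh)
        · exact hnxC (h2 ▸ hh)
      have : Fals τ C := by
        intro h hh
        have h1 := hCf h hh
        simp only [τ₀] at h1
        rwa [Function.update_of_ne (hne h hh)] at h1
      have := hF.uniq hC hD this hτ
      subst this
      exact hnxC hxD
    have hLC : L ≠ C := by
      rintro rfl; exact hxL' hxC
    -- y.1 is not a variable of C
    have hyC : y ∉ C := by
      intro h
      exact hLC (hm C hC hnxC h).symm
    have hnyC : neg y ∉ C := by
      intro h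
      apply hLC
      refine hF.uniq (σ := τ₀) hL hC ?_ hCf
      have hFx := res_uhit hF (nt_single x)
      have hL' : L.erase x ∈ res F {x} := mem_res_single.2 ⟨L, hL, hxL, rfl⟩
      have hC' : C.erase x ∈ res F {x} := mem_res_single.2 ⟨C, hC, hnxC, rfl⟩
      have hmain : ∀ E ∈ res F {x}, y ∈ E → E = L.erase x := by
        intro E hE hyE
        obtain ⟨G, hG, hxG, rfl⟩ := mem_res_single.1 hE
        rw [hm G hG hxG (Finset.mem_of_mem_erase hyE)]
      have hyL' : y ∈ L.erase x := Finset.mem_erase.2 ⟨hyx, hyL⟩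
      have hnyC' : neg y ∈ C.erase x := by
        refine Finset.mem_erase.2 ⟨?_, h⟩
        intro h'
        apply hyx'
        rw [← h', neg_neg']
      intro l hl
      by_cases hly : l = y
      · subst hly
        have h1 := hτ l hyD
        simp only [τ₀]
        rwa [Function.update_of_ne hy1]
      · have hlx : l ≠ x := by rintro rfl; exact hxL' hl
        have := sing hFx hL' hyL' hmain hC' hnyC' (Finset.mem_erase.2 ⟨hlx, hl⟩) hly
        exact hCf l (Finset.mem_of_mem_erase this)
    refine ⟨C, hC, hxC, ?_⟩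
    refine mem_vars.2 ⟨D \ flipc x C, mem_res.2 ⟨D, hD, ?_, rfl⟩, y, ?_, rfl⟩
    · -- no clash: τ falsifies both
      intro l hl hl'
      have h1 := hτ l hl
      unfold flipc at hl'
      rw [Finset.mem_insert, Finset.mem_erase] at hl'
      rcases hl' with h | ⟨h, h'⟩
      · have : l = x := by rw [← neg_neg' l, h, neg_neg']
        subst this
        exact h1 hτx
      · have h2 := hCf _ h'
        have hlx : l.1 ≠ x.1 := by
          intro h3
          rcases eq_or_eq_neg h3 with h4 | h4
          · exact hnxC (h4 ▸ h')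
          · apply h; rw [h4, neg_neg']
        simp only [neg_fst, neg_snd, τ₀] at h2
        rw [Function.update_of_ne hlx] at h2
        cases h5 : τ l.1 <;> cases h6 : l.2 <;> simp_all
    · rw [Finset.mem_sdiff]
      refine ⟨hyD, ?_⟩
      unfold flipc
      rw [Finset.mem_insert, Finset.mem_erase]
      rintro (h | ⟨-, h⟩)
      · exact hyx' h
      · exact hyC h

lemma card_once_res {F : Finset Cl} (hF : UHit F) (ho : once F = ∅) (x : Lit) :
    (once (res F {x})).card ≤ ld F x + ld F x * (2 * ld F (neg x)) := by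
  classical
  -- first kind
  let A : Finset Cl := F.filter (fun D => x ∈ D)
  let S₁ : Finset Lit := (once (res F {x})).filter (fun y => ∃ L ∈ F, x ∈ L ∧ y ∈ L.erase x)
  let S₂ : Finset Lit := A.biUnion (fun C => (vars (res F (flipc x C))) ×ˢ Finset.univ)
  have hcov : once (res F {x}) ⊆ S₁ ∪ S₂ := by
    intro y hy
    rw [Finset.mem_union]
    rcases once_res_cover hF ho hy with h | ⟨C, hC, hxC, hyC⟩
    · left
      exact Finset.mem_filter.2 ⟨hy, h⟩
    · right
      refine Finset.mem_biUnion.2 ⟨C, Finset.mem_filter.2 ⟨hC, hxC⟩, ?_⟩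
      exact Finset.mem_product.2 ⟨hyC, Finset.mem_univ _⟩
  have hS₁ : S₁.card ≤ ld F x := by
    have hex : ∀ y ∈ S₁, ∃ L, L ∈ F ∧ x ∈ L ∧ y ∈ L.erase x := by
      intro y hy
      exact (Finset.mem_filter.1 hy).2
    choose! g hg using hex
    apply Finset.card_le_card_of_injOn g
    · intro y hy
      obtain ⟨h1, h2, -⟩ := hg y hy
      simp only [Finset.coe_filter]
      exact ⟨h1, h2⟩
    · intro y hy y' hy' h
      obtain ⟨h1, h2, h3⟩ := hg y hy
      obtain ⟨h1', h2', h3'⟩ := hg y' hy'
      rw [← h] at h3'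
      have hmem : (g y).erase x ∈ res F {x} :=
        mem_res_single.2 ⟨g y, h1, fun h4 => hF.nt _ h1 x h2 h4, rfl⟩
      exact once_inj (res_uhit hF (nt_single x)) (Finset.mem_filter.1 hy).1
        (Finset.mem_filter.1 hy').1 hmem h3 h3'
  have hS₂ : S₂.card ≤ ld F x * (2 * ld F (neg x)) := by
    apply Finset.card_biUnion_le_card_mul
    intro C hC
    rw [Finset.mem_filter] at hC
    rw [Finset.card_product]
    have h1 := tarsi (res_uhit hF (flipc_nt hF hC.1 hC.2))
    have h2 := card_res_flipc hF hC.1 hC.2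
    simp only [Finset.card_univ, Fintype.card_bool]
    omega
  calc (once (res F {x})).card ≤ (S₁ ∪ S₂).card := Finset.card_le_card hcov
    _ ≤ S₁.card + S₂.card := Finset.card_union_le _ _
    _ ≤ _ := by omega

/-- the bound -/
def bnd : ℕ → ℕ
  | 0 => 0
  | k + 1 => bnd k + 1 + (k + 1) + (k + 1) * (2 * (k + 1))

theorem main_bound : ∀ k : ℕ, ∀ F : Finset Cl, UHit F → once F = ∅ →
    F.card ≤ (vars F).card + k → (vars F).card ≤ bnd k := by
  intro k
  induction k with
  | zero =>
    intro F hF _ hd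
    have := tarsi hF
    omega
  | succ k ih =>
    intro F hF ho hd
    by_cases hv : vars F = ∅
    · rw [hv]; simp
    · obtain ⟨v, hv, hmin⟩ := Finset.exists_min_image (vars F) (deg F)
        (Finset.nonempty_iff_ne_empty.2 hv)
      let x : Lit := (v, true)
      have hxv : x.1 ∈ vars F := hv
      have hx : 2 ≤ ld F x := ld_ge_two hF ho hxv
      have hnx : 2 ≤ ld F (neg x) := ld_ge_two hF ho hxv
      have hminx : ∀ w ∈ vars F, deg F x.1 ≤ deg F w := hmin
      have hminnx : ∀ w ∈ vars F, deg F (neg x).1 ≤ deg F w := hmin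
      have h1 : ld F (neg x) ≤ k + 1 := ld_le hF (by omega) hxv hminx hd
      have h2 : ld F x ≤ k + 1 := by
        have := ld_le hF (x := neg x) (by omega) hxv hminnx hd
        rwa [neg_neg'] at this
      have h3 := card_vars_res hxv (keep (by omega) hminx hF.nt)
      have h4 := card_res_single hF x
      have h5 := bound_by_once k (bnd k) ih _ (res F {x}) rfl (res_uhit hF (nt_single x)) (by omega)
      have h6 := card_once_res hF ho x
      have h7 : ld F x * (2 * ld F (neg x)) ≤ (k + 1) * (2 * (k + 1)) :=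
        Nat.mul_le_mul h2 (Nat.mul_le_mul_left 2 h1)
      simp only [bnd]
      omega

end Pool.Agent.Lib_helper67.Hitting
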